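import Mathlib

/-!
# Combinatorial core: generic colourings and the flow argument
-/

namespace Pool.Agent.NPC.PIso

/-- Generic colouring: if each set of pairs `E i` contains, for every finite set `F`, a pair of
distinct points not both in `F`, then some colouring splits a pair from every `E i`. -/
theorem diag {K : Type*} (E : ℕ → Set (K × K))
    (hE : ∀ i, ∀ F : Finset K, ∃ e ∈ E i, e.1 ≠ e.2 ∧ (e.1 ∉ F ∨ e.2 ∉ F)) :
    ∃ c : K → Bool, ∀ i, ∃ e ∈ E i, c e.1 ≠ c e.2 := by
  classical
  choose pick hpick hne hfresh using hE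
  -- the finite sets of used points and the partial colourings
  let step : ℕ → Finset K × (K → Bool) → Finset K × (K → Bool) := fun i s =>
    (insert (pick i s.1).1 (insert (pick i s.1).2 s.1),
      if (pick i s.1).1 ∉ s.1 then Function.update s.2 (pick i s.1).1 (!(s.2 (pick i s.1).2))
      else Function.update s.2 (pick i s.1).2 (!(s.2 (pick i s.1).1)))
  let st : ℕ → Finset K × (K → Bool) := fun n => Nat.rec (∅, fun _ => false) step n
  have hst : ∀ n, st (n + 1) = step n (st n) := fun n => rfl
  have hmono1 : ∀ n, (st n).1 ⊆ (st (n + 1)).1 := by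
    intro n x hx
    rw [hst]
    exact Finset.mem_insert_of_mem (Finset.mem_insert_of_mem hx)
  have hmono : ∀ m n, m ≤ n → (st m).1 ⊆ (st n).1 := by
    intro m n h
    induction n, h using Nat.le_induction with
    | base => exact Finset.Subset.refl _
    | succ n _ ih => exact ih.trans (hmono1 n)
  have hcol1 : ∀ n x, x ∈ (st n).1 → (st (n + 1)).2 x = (st n).2 x := by
    intro n x hx
    rw [hst]
    change (if (pick n (st n).1).1 ∉ (st n).1 then _ else _ : K → Bool) x = _
    by_cases h : (pick n (st n).1).1 ∉ (st n).1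
    · rw [if_pos h, Function.update_of_ne]
      rintro rfl
      exact h hx
    · rw [if_neg h, Function.update_of_ne]
      rintro rfl
      rcases hfresh n (st n).1 with h' | h'
      · exact h h'
      · exact h' hx
  have hcol : ∀ m n, m ≤ n → ∀ x ∈ (st m).1, (st n).2 x = (st m).2 x := by
    intro m n h
    induction n, h using Nat.le_induction with
    | base => exact fun x _ => rfl
    | succ n hn ih =>
      intro x hx
      rw [hcol1 n x (hmono m n hn hx), ih x hx]
  let c : K → Bool := fun x => if h : ∃ n, x ∈ (st n).1 then (st h.choose).2 x else false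
  have hc : ∀ n x, x ∈ (st n).1 → c x = (st n).2 x := by
    intro n x hx
    have h : ∃ n, x ∈ (st n).1 := ⟨n, hx⟩
    have e : c x = (st h.choose).2 x := dif_pos h
    rw [e]
    rcases le_total h.choose n with h' | h'
    · exact (hcol _ _ h' x h.choose_spec).symm
    · exact hcol _ _ h' x hx
  refine ⟨c, fun i => ⟨pick i (st i).1, hpick _ _, ?_⟩⟩
  have h1 : (pick i (st i).1).1 ∈ (st (i + 1)).1 := by
    rw [hst]; exact Finset.mem_insert_self _ _
  have h2 : (pick i (st i).1).2 ∈ (st (i + 1)).1 := by
    rw [hst]; exact Finset.mem_insert_of_mem (Finset.mem_insert_self _ _)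
  rw [hc (i + 1) _ h1, hc (i + 1) _ h2, hst]
  change (if (pick i (st i).1).1 ∉ (st i).1 then _ else _ : K → Bool) _ ≠
    (if (pick i (st i).1).1 ∉ (st i).1 then _ else _ : K → Bool) _
  have hne' := hne i (st i).1
  by_cases h : (pick i (st i).1).1 ∉ (st i).1
  · rw [if_pos h, Function.update_self, Function.update_of_ne hne'.symm]
    simp
  · rw [if_neg h, Function.update_self, Function.update_of_ne hne']
    simp

/-- The same for a countable family, without assumption on the pairs: each member of the family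
is split, or lives on finitely many points. -/
theorem diag' {K : Type*} {ι : Type*} (I : Set ι) (hI : I.Countable) (E : ι → Set (K × K)) :
    ∃ c : K → Bool, ∀ i ∈ I, (∃ e ∈ E i, c e.1 ≠ c e.2) ∨
      ∃ F : Finset K, ∀ e ∈ E i, e.1 ≠ e.2 → e.1 ∈ F ∧ e.2 ∈ F := by
  classical
  let J : Set ι := {i ∈ I | ¬ ∃ F : Finset K, ∀ e ∈ E i, e.1 ≠ e.2 → e.1 ∈ F ∧ e.2 ∈ F}
  have hJ : J.Countable := hI.mono fun i hi => hi.1
  rcases J.eq_empty_or_nonempty with h | h
  · refine ⟨fun _ => false, fun i hi => Or.inr ?_⟩
    by_contra hn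
    have : i ∈ J := ⟨hi, hn⟩
    rw [h] at this
    exact this
  · obtain ⟨φ, hφ⟩ := hJ.exists_eq_range h
    obtain ⟨c, hc⟩ := diag (fun n => E (φ n)) (by
      intro n F
      have hn : φ n ∈ J := by rw [hφ]; exact ⟨n, rfl⟩
      have := hn.2
      push Not at this
      obtain ⟨e, he, hne, h'⟩ := this F
      refine ⟨e, he, hne, ?_⟩
      by_cases h1 : e.1 ∈ F
      · exact Or.inr (h' h1)
      · exact Or.inl h1)
    refine ⟨c, fun i hi => ?_⟩
    by_cases hF : ∃ F : Finset K, ∀ e ∈ E i, e.1 ≠ e.2 → e.1 ∈ F ∧ e.2 ∈ F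
    · exact Or.inr hF
    · left
      have : i ∈ J := ⟨hi, hF⟩
      rw [hφ] at this
      obtain ⟨n, rfl⟩ := this
      exact hc n

/-- The bipartite graph of a pair of maps: edges `x — f x` and `g y — y`. -/
inductive Adj {S : Type} (f g : S → S) : S ⊕ S → S ⊕ S → Prop
  | f (x : S) : Adj f g (Sum.inl x) (Sum.inr (f x))
  | g (y : S) : Adj f g (Sum.inr y) (Sum.inl (g y))

/-- Two sets, mutually reducible by `f` and `g`, such that every isomorphism from a given countable
family preserves all but finitely many components of the graph of `f, g`. -/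
theorem exists_sets {S : Type} (f g : S → S) (H : Set (S → S)) (hH : H.Countable) :
    ∃ A B : Set S, (∀ x, x ∈ A ↔ f x ∈ B) ∧ (∀ y, y ∈ B ↔ g y ∈ A) ∧
      ∀ h ∈ H, (∀ x, x ∈ A ↔ h x ∈ B) → ∃ F : Finset (Quot (Adj f g)), ∀ x,
        (Quot.mk (Adj f g) (Sum.inl x)) ≠ Quot.mk (Adj f g) (Sum.inr (h x)) →
          Quot.mk (Adj f g) (Sum.inl x) ∈ F ∧ Quot.mk (Adj f g) (Sum.inr (h x)) ∈ F := by
  obtain ⟨c, hc⟩ := diag' H hH (fun h => Set.range (fun x : S =>
    (Quot.mk (Adj f g) (Sum.inl x), Quot.mk (Adj f g) (Sum.inr (h x)))))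
  refine ⟨{x | c (Quot.mk (Adj f g) (Sum.inl x)) = true},
    {y | c (Quot.mk (Adj f g) (Sum.inr y)) = true}, ?_, ?_, ?_⟩
  · intro x
    simp only [Set.mem_ofPred_eq, Quot.sound (Adj.f (f := f) (g := g) x)]
  · intro y
    simp only [Set.mem_ofPred_eq, Quot.sound (Adj.g (f := f) (g := g) y)]
  · intro h hh hiso
    rcases hc h hh with ⟨e, ⟨x, rfl⟩, hx⟩ | ⟨F, hF⟩
    · exfalso
      apply hx
      have := hiso x
      simp only [Set.mem_ofPred_eq] at this
      exact Bool.eq_iff_iff.2 this
    · exact ⟨F, fun x hx => hF _ ⟨x, rfl⟩ hx⟩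

/-- A family of pairwise disjoint saturated sets: all but finitely many of them are preserved. -/
theorem preserved {S X : Type} {f g : S → S} {h : S → S} (F : Finset (Quot (Adj f g)))
    (hF : ∀ x, (Quot.mk (Adj f g) (Sum.inl x)) ≠ Quot.mk (Adj f g) (Sum.inr (h x)) →
          Quot.mk (Adj f g) (Sum.inl x) ∈ F ∧ Quot.mk (Adj f g) (Sum.inr (h x)) ∈ F)
    (P : X → S ⊕ S → Prop) (hP : ∀ x u v, Adj f g u v → (P x u ↔ P x v))
    (hdis : ∀ x x' u, P x u → P x' u → x = x') :
    {x | ¬ ∀ w, (P x (Sum.inl w) ↔ P x (Sum.inr (h w)))}.Finite := by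
  classical
  -- the predicates on components
  let Q : X → Quot (Adj f g) → Prop := fun x => Quot.lift (P x) (fun u v huv =>
    propext (hP x u v huv))
  have key : {x | ¬ ∀ w, (P x (Sum.inl w) ↔ P x (Sum.inr (h w)))} ⊆
      ⋃ κ ∈ F, {x | Q x κ} := by
    intro x hx
    simp only [Set.mem_ofPred_eq, not_forall] at hx
    obtain ⟨w, hw⟩ := hx
    simp only [Set.mem_iUnion, Set.mem_ofPred_eq, exists_prop]
    by_cases h1 : P x (Sum.inl w)
    · have hne : (Quot.mk (Adj f g) (Sum.inl w)) ≠ Quot.mk (Adj f g) (Sum.inr (h w)) := by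
        intro h2
        apply hw
        have : Q x (Quot.mk (Adj f g) (Sum.inl w)) ↔ Q x (Quot.mk (Adj f g) (Sum.inr (h w))) := by
          rw [h2]
        exact this
      exact ⟨_, (hF w hne).1, h1⟩
    · have h3 : P x (Sum.inr (h w)) := by
        by_contra h3
        exact hw ⟨fun h => absurd h h1, fun h => absurd h h3⟩
      have hne : (Quot.mk (Adj f g) (Sum.inl w)) ≠ Quot.mk (Adj f g) (Sum.inr (h w)) := by
        intro h2
        apply hw
        have : Q x (Quot.mk (Adj f g) (Sum.inl w)) ↔ Q x (Quot.mk (Adj f g) (Sum.inr (h w))) := by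
          rw [h2]
        exact this
      exact ⟨_, (hF w hne).2, h3⟩
  refine Set.Finite.subset (Set.Finite.biUnion F.finite_toSet fun κ _ => ?_) key
  apply Set.Subsingleton.finite
  intro x hx x' hx'
  induction κ using Quot.ind with
  | mk u => exact hdis x x' u hx hx'

/-- Counting along a bijection that preserves a set consisting of finitely many points and an
infinite tail. -/
theorem count {S : Type} [DecidableEq S] (t : ℕ → S) (ht : Function.Injective t)
    (PA PB : Finset S) (hA : ∀ k, t k ∉ PA) (hB : ∀ k, t k ∉ PB) (h h' : S → S)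
    (h1 : ∀ w, h' (h w) = w) (h2 : ∀ w, h (h' w) = w)
    (hpres : ∀ w, ((∃ k, w = t k) ∨ w ∈ PA) ↔ ((∃ k, h w = t k) ∨ h w ∈ PB))
    (K : ℕ) (hK : ∀ k, K ≤ k → h (t k) ∉ PB) (hK' : ∀ k, K ≤ k → h' (t k) ∉ PA)
    (D D' : ℕ → Prop) [DecidablePred D] [DecidablePred D']
    (hD : ∀ k < K, (D k ↔ ∃ j, h (t k) = t j)) (hD' : ∀ k < K, (D' k ↔ ∃ j, h' (t k) = t j)) :
    PA.card + ((Finset.range K).filter (fun k => ¬ D k)).card =
      PB.card + ((Finset.range K).filter (fun k => ¬ D' k)).card := by
  classical
  have e1 : PA.card = (PA.filter (fun w => h w ∈ PB)).card +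
      ((Finset.range K).filter (fun k => ¬ D' k)).card := by
    rw [← Finset.card_filter_add_card_filter_not (s := PA) (fun w => h w ∈ PB)]
    congr 1
    symm
    apply Finset.card_bij (fun k _ => h' (t k))
    · intro k hk
      simp only [Finset.mem_filter, Finset.mem_range] at hk ⊢
      have hk1 := (hD' k hk.1).not.1 hk.2
      have h3 : h' (t k) ∈ PA := by
        have := (hpres (h' (t k))).2 (Or.inl ⟨k, h2 _⟩)
        rcases this with ⟨j, hj⟩ | h4
        · exact absurd ⟨j, hj⟩ hk1
        · exact h4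
      refine ⟨h3, ?_⟩
      rw [h2]
      exact hB k
    · intro a _ b _ hab
      have := congrArg h hab
      rw [h2, h2] at this
      exact ht this
    · intro w hw
      simp only [Finset.mem_filter] at hw
      rcases (hpres w).1 (Or.inr hw.1) with ⟨k, hk⟩ | h4
      · have hw' : h' (t k) = w := by rw [← hk, h1]
        have hkK : k < K := by
          by_contra hlt
          exact hK' k (not_lt.1 hlt) (by rw [hw']; exact hw.1)
        refine ⟨k, ?_, hw'⟩
        simp only [Finset.mem_filter, Finset.mem_range]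
        refine ⟨hkK, (hD' k hkK).not.2 ?_⟩
        rintro ⟨j, hj⟩
        rw [hw'] at hj
        exact hA j (hj ▸ hw.1)
      · exact absurd h4 hw.2
  have e2 : PB.card = (PA.filter (fun w => h w ∈ PB)).card +
      ((Finset.range K).filter (fun k => ¬ D k)).card := by
    rw [← Finset.card_filter_add_card_filter_not (s := PB) (fun w => h' w ∈ PA)]
    congr 1
    · symm
      apply Finset.card_bij (fun w _ => h w)
      · intro w hw
        simp only [Finset.mem_filter] at hw ⊢
        rw [h1]
        exact ⟨hw.2, hw.1⟩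
      · intro a _ b _ hab
        have := congrArg h' hab
        rwa [h1, h1] at this
      · intro w hw
        simp only [Finset.mem_filter] at hw
        exact ⟨h' w, by simp only [Finset.mem_filter]; rw [h2]; exact ⟨hw.2, hw.1⟩, h2 w⟩
    · symm
      apply Finset.card_bij (fun k _ => h (t k))
      · intro k hk
        simp only [Finset.mem_filter, Finset.mem_range] at hk ⊢
        have hk1 := (hD k hk.1).not.1 hk.2
        have h3 : h (t k) ∈ PB := by
          rcases (hpres (t k)).1 (Or.inl ⟨k, rfl⟩) with ⟨j, hj⟩ | h4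
          · exact absurd ⟨j, hj⟩ hk1
          · exact h4
        refine ⟨h3, ?_⟩
        rw [h1]
        exact hA k
      · intro a _ b _ hab
        have := congrArg h' hab
        rw [h1, h1] at this
        exact ht this
      · intro w hw
        simp only [Finset.mem_filter] at hw
        rcases (hpres (h' w)).2 (Or.inr (by rw [h2]; exact hw.1)) with ⟨k, hk⟩ | h4
        · have hw' : h (t k) = w := by rw [← hk, h2]
          have hkK : k < K := by
            by_contra hlt
            exact hK k (not_lt.1 hlt) (by rw [hw']; exact hw.1)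
          refine ⟨k, ?_, hw'⟩
          simp only [Finset.mem_filter, Finset.mem_range]
          refine ⟨hkK, (hD k hkK).not.2 ?_⟩
          rintro ⟨j, hj⟩
          rw [hw'] at hj
          exact hB j (hj ▸ hw.1)
        · exact absurd h4 hw.2
  omega

end Pool.Agent.NPC.PIso
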