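import Pool.Agent.H550R2.Iso.Iter

/-!
# If `P = PSPACE` then `Q1` holds
-/

namespace Pool.Agent.NPC.PIso

open Turing

namespace Back

variable (rf rg : List Bool → List Bool)

/-- one step back -/
def back (u : Bool × List Bool) : Bool × List Bool :=
  bif u.1 then (if rf u.2 = [] then u else (false, (rf u.2).tail))
  else (if rg u.2 = [] then u else (true, (rg u.2).tail))

/-- no step back -/
def stuck (u : Bool × List Bool) : Bool :=
  bif u.1 then decide (rf u.2 = []) else decide (rg u.2 = [])

/-- the chain leading to `x` starts on the second side -/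
def LB : Set (List Bool) :=
  {x | ∃ n, ((back rf rg)^[n] (false, x)).1 = true ∧ rf ((back rf rg)^[n] (false, x)).2 = []}

theorem back_stuck {u : Bool × List Bool} (h : stuck rf rg u = true) : back rf rg u = u := by
  obtain ⟨b, w⟩ := u
  cases b <;> simp [stuck] at h <;> simp [back, h]

theorem back_stuck_iter {u : Bool × List Bool} (h : stuck rf rg u = true) (n : ℕ) :
    (back rf rg)^[n] u = u := by
  induction n with
  | zero => rfl
  | succ n ih => rw [Function.iterate_succ_apply, back_stuck rf rg h, ih]

theorem mem_LB_iff (x : List Bool) : x ∈ LB rf rg ↔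
    rg x ≠ [] ∧ (rf (rg x).tail = [] ∨ (rf (rg x).tail).tail ∈ LB rf rg) := by
  constructor
  · rintro ⟨n, h1, h2⟩
    have hg : rg x ≠ [] := by
      intro hg
      rw [back_stuck_iter rf rg (u := (false, x)) (by simp [stuck, hg])] at h1
      exact Bool.false_ne_true h1
    refine ⟨hg, ?_⟩
    have e1 : back rf rg (false, x) = (true, (rg x).tail) := by simp [back, hg]
    by_cases hf : rf (rg x).tail = []
    · exact Or.inl hf
    · right
      have e2 : back rf rg (true, (rg x).tail) = (false, (rf (rg x).tail).tail) := by
        simp [back, hf]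
      match n with
      | 0 => exact absurd h1 (by simp)
      | 1 =>
        rw [Function.iterate_one, e1] at h2
        exact absurd h2 hf
      | n + 2 =>
        rw [Function.iterate_succ_apply, Function.iterate_succ_apply, e1, e2] at h1 h2
        exact ⟨n, h1, h2⟩
  · rintro ⟨hg, h⟩
    have e1 : back rf rg (false, x) = (true, (rg x).tail) := by simp [back, hg]
    by_cases hf : rf (rg x).tail = []
    · exact ⟨1, by rw [Function.iterate_one, e1], by rw [Function.iterate_one, e1]; exact hf⟩
    · have e2 : back rf rg (true, (rg x).tail) = (false, (rf (rg x).tail).tail) := by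
        simp [back, hf]
      rcases h with h | ⟨n, h1, h2⟩
      · exact absurd h hf
      · refine ⟨n + 2, ?_, ?_⟩
        · rw [Function.iterate_succ_apply, Function.iterate_succ_apply, e1, e2]; exact h1
        · rw [Function.iterate_succ_apply, Function.iterate_succ_apply, e1, e2]; exact h2

/-- a number coding a state -/
def codeU (u : Bool × List Bool) : ℕ := valB ((u.1 :: u.2) ++ [true])

theorem codeU_inj : Function.Injective codeU := by
  intro u v h
  have h1 := congrArg Nat.bits h
  unfold codeU at h1
  rw [bits_valB_append_true, bits_valB_append_true] at h1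
  have h2 := List.append_cancel_right h1
  simp only [List.cons.injEq] at h2
  exact Prod.ext h2.1 h2.2

theorem codeU_lt (u : Bool × List Bool) : codeU u < 2 ^ (u.2.length + 2) := by
  have := valB_lt ((u.1 :: u.2) ++ [true])
  simpa [codeU] using this

variable {rf rg}

theorem back_len (hf : ∀ w, rf w ≠ [] → (rf w).tail.length ≤ w.length)
    (hg : ∀ w, rg w ≠ [] → (rg w).tail.length ≤ w.length) (u : Bool × List Bool) :
    (back rf rg u).2.length ≤ u.2.length := by
  obtain ⟨b, w⟩ := u
  cases b
  · simp only [back, cond_false]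
    split_ifs with h
    · exact le_rfl
    · exact hg w h
  · simp only [back, cond_true]
    split_ifs with h
    · exact le_rfl
    · exact hf w h

theorem iter_len (hf : ∀ w, rf w ≠ [] → (rf w).tail.length ≤ w.length)
    (hg : ∀ w, rg w ≠ [] → (rg w).tail.length ≤ w.length) (u : Bool × List Bool) (n : ℕ) :
    ((back rf rg)^[n] u).2.length ≤ u.2.length := by
  induction n with
  | zero => exact le_rfl
  | succ n ih =>
    rw [Function.iterate_succ_apply']
    exact (back_len hf hg _).trans ih

theorem stuck_lt (hf : ∀ w, rf w ≠ [] → (rf w).tail.length ≤ w.length)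
    (hg : ∀ w, rg w ≠ [] → (rg w).tail.length ≤ w.length) (u : Bool × List Bool) (n : ℕ)
    (h1 : stuck rf rg ((back rf rg)^[n] u) = true)
    (h2 : ∀ i < n, stuck rf rg ((back rf rg)^[i] u) = false) : n < 2 ^ (u.2.length + 2) := by
  have key : ∀ i j, i < j → j ≤ n → (back rf rg)^[i] u ≠ (back rf rg)^[j] u := by
    intro i j hlt hj hij'
    have e : (back rf rg)^[n] u = (back rf rg)^[n - (j - i)] u := by
      calc (back rf rg)^[n] u = (back rf rg)^[n - j] ((back rf rg)^[j] u) := by
            rw [← Function.iterate_add_apply]; congr 2; omega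
        _ = (back rf rg)^[n - j] ((back rf rg)^[i] u) := by rw [hij']
        _ = (back rf rg)^[n - (j - i)] u := by
            rw [← Function.iterate_add_apply]; congr 2; omega
    have h4 := h2 (n - (j - i)) (by omega)
    rw [← e, h1] at h4
    exact Bool.false_ne_true h4.symm
  have h3 : (Finset.range (n + 1)).card ≤ (Finset.range (2 ^ (u.2.length + 2))).card := by
    apply Finset.card_le_card_of_injOn (fun i => codeU ((back rf rg)^[i] u))
    · intro i _
      simp only [Finset.coe_range, Set.mem_Iio]
      refine (codeU_lt _).trans_le (Nat.pow_le_pow_right (by norm_num) ?_)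
      have := iter_len hf hg u i
      omega
    · intro i hi j hj hij
      simp only [Finset.coe_range, Set.mem_Iio] at hi hj
      have hij' := codeU_inj hij
      by_contra hne
      rcases lt_or_gt_of_ne hne with h | h
      · exact key i j h (by omega) hij'
      · exact key j i h (by omega) hij'.symm
  simpa using h3

/-- the state with a counter -/
def step (rf rg : List Bool → List Bool) (p : ℕ × Bool × List Bool) : ℕ × Bool × List Bool :=
  (p.1 - 1, back rf rg p.2)

theorem step_iter (p : ℕ × Bool × List Bool) (n : ℕ) :
    (step rf rg)^[n] p = (p.1 - n, (back rf rg)^[n] p.2) := by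
  induction n with
  | zero => rfl
  | succ n ih =>
    rw [Function.iterate_succ_apply', ih, Function.iterate_succ_apply']
    simp only [step, Prod.mk.injEq, and_true]
    omega

theorem LB_inPSPACE (hpf : Poly rf) (hpg : Poly rg)
    (hf : ∀ w, rf w ≠ [] → (rf w).tail.length ≤ w.length)
    (hg : ∀ w, rg w ≠ [] → (rg w).tail.length ≤ w.length) : InPSPACE (LB rf rg) := by
  have hb : Poly (back rf rg) := by
    refine Poly.cond (Poly.fst Poly.id) ?_ ?_
    · exact Poly.ite (Poly.decide_eq (hpf.comp (Poly.snd Poly.id)) (Poly.const [])) Poly.id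
        (Poly.pair (Poly.const false) (Poly.tail (hpf.comp (Poly.snd Poly.id))))
    · exact Poly.ite (Poly.decide_eq (hpg.comp (Poly.snd Poly.id)) (Poly.const [])) Poly.id
        (Poly.pair (Poly.const true) (Poly.tail (hpg.comp (Poly.snd Poly.id))))
  have hs : Poly (stuck rf rg) :=
    Poly.cond (Poly.fst Poly.id) (Poly.decide_eq (hpf.comp (Poly.snd Poly.id)) (Poly.const []))
      (Poly.decide_eq (hpg.comp (Poly.snd Poly.id)) (Poly.const []))
  have hstep : Poly (step rf rg) :=
    Poly.pair (Poly.sub (Poly.fst Poly.id) (Poly.const 1)) (hb.comp (Poly.snd Poly.id))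
  let stop : ℕ × Bool × List Bool → Bool := fun p => decide (p.1 = 0) || stuck rf rg p.2
  have hstop : Poly stop :=
    Poly.or (Poly.decide_eq (Poly.fst Poly.id) (Poly.const 0)) (hs.comp (Poly.snd Poly.id))
  let acc : ℕ × Bool × List Bool → Bool := fun p => p.2.1 && decide (rf p.2.2 = [])
  have hacc : Poly acc :=
    Poly.and (Poly.fst (Poly.snd Poly.id)) (Poly.decide_eq
      (hpf.comp (Poly.snd (Poly.snd Poly.id))) (Poly.const []))
  let init : List Bool → ℕ × Bool × List Bool := fun x => (2 ^ (x.length + 2), false, x)
  have hinit : Poly init := by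
    refine Poly.pair (poly_two_pow (UPoly.add (UPoly.length Poly.id) (UPoly.const 2)))
      (Poly.pair (Poly.const false) Poly.id)
  refine inPSPACE_iter (step rf rg) stop hstep hstop hacc hinit
    (Polynomial.C 8 * Polynomial.X + Polynomial.C 30) ?_
  intro x
  have hsz : ∀ i, sz ((step rf rg)^[i] (init x)) ≤
      (Polynomial.C 8 * Polynomial.X + Polynomial.C 30 : Polynomial ℕ).eval x.length := by
    intro i
    rw [step_iter]
    have h1 : sz ((init x).1 - i) ≤ 4 * (x.length + 3) + 1 := by
      refine (sz_nat_le _).trans ?_
      have : ((init x).1 - i).size ≤ x.length + 3 := by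
        rw [Nat.size_le]
        have h2 : (init x).1 = 2 ^ (x.length + 2) := rfl
        have h3 : 2 ^ (x.length + 3) = 2 * 2 ^ (x.length + 2) := by ring
        have h4 : 0 < 2 ^ (x.length + 2) := by positivity
        omega
      omega
    have h2 : sz ((back rf rg)^[i] (init x).2) ≤ 4 * x.length + 5 := by
      have h3 := iter_len hf hg (init x).2 i
      have h4 : ((init x).2).2 = x := rfl
      rw [h4] at h3
      generalize (back rf rg)^[i] (init x).2 = u at h3
      obtain ⟨b, w⟩ := u
      rw [sz_pair]
      have h5 := sz_bool_le b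
      have h6 := sz_listBool_le w
      have h7 : w.length ≤ x.length := h3
      omega
    rw [sz_pair]
    simp only [Polynomial.eval_add, Polynomial.eval_mul, Polynomial.eval_C, Polynomial.eval_X]
    omega
  by_cases hex : ∃ n, stuck rf rg ((back rf rg)^[n] (false, x)) = true
  · classical
    let n := Nat.find hex
    have hn1 : stuck rf rg ((back rf rg)^[n] (false, x)) = true := Nat.find_spec hex
    have hn2 : ∀ i < n, stuck rf rg ((back rf rg)^[i] (false, x)) = false := by
      intro i hi
      have := Nat.find_min hex hi
      simpa using this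
    have hn3 := stuck_lt hf hg (false, x) n hn1 hn2
    refine ⟨n, ?_, ?_, fun i _ => hsz i, ?_⟩
    · simp only [stop, step_iter, init, hn1, Bool.or_true]
    · intro i hi
      simp only [stop, step_iter, init, hn2 i hi, Bool.or_false, decide_eq_false_iff_not]
      simp only at hn3
      omega
    · simp only [acc, step_iter, init, Bool.and_eq_true, decide_eq_true_iff]
      constructor
      · rintro ⟨k, h1, h2⟩
        -- the chain is stuck at `n`, and at `k`
        have hk : stuck rf rg ((back rf rg)^[k] (false, x)) = true := by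
          unfold stuck; rw [h1]; simp [h2]
        have e : (back rf rg)^[k] (false, x) = (back rf rg)^[n] (false, x) := by
          have hnk : n ≤ k := Nat.find_min' hex hk
          conv_lhs => rw [show k = (k - n) + n by omega]
          rw [Function.iterate_add_apply, back_stuck_iter rf rg hn1]
        rw [← e]
        exact ⟨h1, h2⟩
      · rintro ⟨h1, h2⟩
        exact ⟨n, h1, h2⟩
  · push Not at hex
    refine ⟨2 ^ (x.length + 2), ?_, ?_, fun i _ => hsz i, ?_⟩
    · simp [stop, step_iter, init]
    · intro i hi
      have := hex i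
      simp only [stop, step_iter, init, Bool.or_eq_false_iff, decide_eq_false_iff_not]
      refine ⟨by omega, by simpa using this⟩
    · simp only [acc, step_iter, init, Bool.and_eq_true, decide_eq_true_iff]
      constructor
      · rintro ⟨k, h1, h2⟩
        exfalso
        apply hex k
        unfold stuck; rw [h1]; simp [h2]
      · rintro ⟨h1, h2⟩
        exact ⟨_, h1, h2⟩

end Back

/-- If every language in `PSPACE` is in `P`, then `Q1` holds. -/
theorem Q1_of_pspace (hP : ∀ L, InPSPACE L → InP L) : Q1 := by
  rintro A B ⟨f, ⟨hfp, hfr⟩, _, hfl, hfi, rf, hrf, hrf1, hrf2⟩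
    ⟨g, ⟨hgp, hgr⟩, _, hgl, hgi, rg, hrg, hrg1, hrg2⟩
  have hf0 : ∀ w, rf w ≠ [] → ∃ x, w = f x ∧ rf w = true :: x := by
    intro w h
    by_contra hcon
    apply h
    apply hrf2
    rintro ⟨x, rfl⟩
    exact hcon ⟨x, rfl, hrf1 x⟩
  have hg0 : ∀ w, rg w ≠ [] → ∃ x, w = g x ∧ rg w = true :: x := by
    intro w h
    by_contra hcon
    apply h
    apply hrg2
    rintro ⟨x, rfl⟩
    exact hcon ⟨x, rfl, hrg1 x⟩
  have hpf : Poly rf := poly_iff.2 hrf
  have hpg : Poly rg := poly_iff.2 hrg
  obtain ⟨V, hV, hVL⟩ := hP _ (Back.LB_inPSPACE hpf hpg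
    (by
      intro w h
      obtain ⟨x, rfl, h1⟩ := hf0 w h
      rw [h1, List.tail_cons]
      exact hfl x)
    (by
      intro w h
      obtain ⟨x, rfl, h1⟩ := hg0 w h
      rw [h1, List.tail_cons]
      exact hgl x))
  have hVp : Poly V := poly_iff.2 hV
  let h : List Bool → List Bool := fun x => if V x = [true] then (rg x).tail else f x
  let h' : List Bool → List Bool := fun y =>
    if rf y = [] ∨ V (rf y).tail = [true] then g y else (rf y).tail
  have hh : Poly h := Poly.ite (Poly.decide_eq hVp (Poly.const [true])) (Poly.tail hpg)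
    (poly_iff.2 hfp)
  have hh' : Poly h' := Poly.ite (Poly.decide_or (Poly.decide_eq hpf (Poly.const []))
    (Poly.decide_eq (hVp.comp (Poly.tail hpf)) (Poly.const [true]))) (poly_iff.2 hgp)
    (Poly.tail hpf)
  refine ⟨h, h', poly_iff.1 hh, poly_iff.1 hh', ?_, ?_, ?_⟩
  · intro x
    by_cases hx : V x = [true]
    · have h1 := (hVL x).2 hx
      rw [Back.mem_LB_iff] at h1
      obtain ⟨h2, h3⟩ := h1
      obtain ⟨y, rfl, h4⟩ := hg0 x h2
      rw [h4, List.tail_cons] at h3
      have e1 : h (g y) = y := by
        simp only [h, hx, if_true, h4, List.tail_cons]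
      rw [e1]
      have h5 : rf y = [] ∨ V (rf y).tail = [true] := h3.imp_right fun h => (hVL _).1 h
      simp only [h', h5, if_true]
    · have e1 : h x = f x := by simp only [h, hx, if_false]
      rw [e1]
      simp only [h', hrf1, List.tail_cons, hx, or_false, reduceCtorEq, if_false]
  · intro y
    by_cases hy : rf y = [] ∨ V (rf y).tail = [true]
    · have e1 : h' y = g y := by simp only [h', hy, if_true]
      rw [e1]
      have h1 : V (g y) = [true] := by
        rw [← hVL, Back.mem_LB_iff, hrg1, List.tail_cons]
        exact ⟨by simp, hy.imp_right fun h => (hVL _).2 h⟩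
      simp only [h, h1, if_true, hrg1, List.tail_cons]
    · have e1 : h' y = (rf y).tail := by simp only [h', hy, if_false]
      rw [e1]
      push Not at hy
      obtain ⟨x, rfl, h2⟩ := hf0 y hy.1
      have h3 := hy.2
      rw [h2, List.tail_cons] at h3 ⊢
      simp only [h, h3, if_false]
  · intro x
    by_cases hx : V x = [true]
    · have h1 := (hVL x).2 hx
      rw [Back.mem_LB_iff] at h1
      obtain ⟨y, rfl, h4⟩ := hg0 x h1.1
      simp only [h, hx, if_true, h4, List.tail_cons]
      exact (hgr y).symm
    · simp only [h, hx, if_false]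
      exact hfr x

/-- **Main theorem.** `Q1` holds if and only if `P = PSPACE`. -/
theorem Q1_iff : Q1 ↔ ∀ L, InPSPACE L ↔ InP L :=
  ⟨fun h L => ⟨pspace_of_Q1 h L, inPSPACE_of_inP⟩, fun h => Q1_of_pspace fun L => (h L).1⟩

end Pool.Agent.NPC.PIso
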