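import Mathlib

/-!
# The Euler tour of the graph of a partial function on `{0, …, M - 1}`

Darts are pairs `(c, p)` with `c < M`, `p ≤ M`; the value `p = M` stands for the absence of a predecessor.
-/

namespace Pool.Agent.NPC.PIso

namespace Euler

variable (M : ℕ) (δ : ℕ → ℕ) (F : ℕ → Bool)

/-- the involution: crossing the edge `c → δ c` -/
def eps (a : ℕ × ℕ) : ℕ × ℕ :=
  if a.2 = M then (if F a.1 = true then a else (δ a.1, a.1))
  else (if F a.2 = false ∧ δ a.2 = a.1 then (a.2, M) else a)

/-- the rotation at a vertex -/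
def rho (a : ℕ × ℕ) : ℕ × ℕ := (a.1, (a.2 + 1) % (M + 1))

/-- the inverse rotation -/
def rhoi (a : ℕ × ℕ) : ℕ × ℕ := (a.1, (a.2 + M) % (M + 1))

/-- one step of the tour -/
def T (a : ℕ × ℕ) : ℕ × ℕ := rho M (eps M δ F a)

/-- one step back -/
def Ti (a : ℕ × ℕ) : ℕ × ℕ := eps M δ F (rhoi M a)

/-- valid darts -/
def Valid (a : ℕ × ℕ) : Prop := a.1 < M ∧ a.2 ≤ M

variable {M δ F} (hδ : ∀ c < M, F c = false → δ c < M)

include hδ in
theorem valid_eps {a : ℕ × ℕ} (ha : Valid M a) : Valid M (eps M δ F a) := by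
  obtain ⟨c, p⟩ := a
  obtain ⟨h1, h2⟩ := ha
  simp only at h1 h2
  unfold eps
  simp only
  split_ifs with h3 h4 h5
  · exact ⟨h1, h2⟩
  · exact ⟨hδ c h1 (by simpa using h4), h1.le⟩
  · exact ⟨by simp only; omega, le_rfl⟩
  · exact ⟨h1, h2⟩

theorem valid_rho {a : ℕ × ℕ} (ha : Valid M a) : Valid M (rho M a) :=
  ⟨ha.1, Nat.lt_succ_iff.1 (Nat.mod_lt _ (Nat.succ_pos _))⟩

theorem valid_rhoi {a : ℕ × ℕ} (ha : Valid M a) : Valid M (rhoi M a) :=
  ⟨ha.1, Nat.lt_succ_iff.1 (Nat.mod_lt _ (Nat.succ_pos _))⟩

include hδ in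
theorem valid_T {a : ℕ × ℕ} (ha : Valid M a) : Valid M (T M δ F a) := valid_rho (valid_eps hδ ha)

include hδ in
theorem valid_Ti {a : ℕ × ℕ} (ha : Valid M a) : Valid M (Ti M δ F a) := valid_eps hδ (valid_rhoi ha)

include hδ in
theorem eps_eps {a : ℕ × ℕ} (ha : Valid M a) : eps M δ F (eps M δ F a) = a := by
  obtain ⟨c, p⟩ := a
  obtain ⟨h1, h2⟩ := ha
  simp only at h1 h2
  by_cases h3 : p = M
  · subst h3
    by_cases h4 : F c = true
    · simp [eps, h4]
    · have h4' : F c = false := by simpa using h4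
      have h5 : c ≠ p := by omega
      simp [eps, h4', h5]
  · by_cases h5 : F p = false ∧ δ p = c
    · have h6 : F p ≠ true := by rw [h5.1]; simp
      simp [eps, h3, h5.1, h5.2]
    · have : eps M δ F (c, p) = (c, p) := by
        unfold eps
        rw [if_neg h3, if_neg h5]
      rw [this, this]

theorem rhoi_rho {a : ℕ × ℕ} (ha : Valid M a) : rhoi M (rho M a) = a := by
  obtain ⟨c, p⟩ := a
  obtain ⟨h1, h2⟩ := ha
  simp only at h1 h2
  simp only [rho, rhoi, Prod.mk.injEq, true_and]
  rw [Nat.mod_add_mod, show p + 1 + M = p + (M + 1) by ring, Nat.add_mod_right,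
    Nat.mod_eq_of_lt (by omega)]

theorem rho_rhoi {a : ℕ × ℕ} (ha : Valid M a) : rho M (rhoi M a) = a := by
  obtain ⟨c, p⟩ := a
  obtain ⟨h1, h2⟩ := ha
  simp only at h1 h2
  simp only [rho, rhoi, Prod.mk.injEq, true_and]
  rw [Nat.mod_add_mod, show p + M + 1 = p + (M + 1) by ring, Nat.add_mod_right,
    Nat.mod_eq_of_lt (by omega)]

include hδ in
theorem Ti_T {a : ℕ × ℕ} (ha : Valid M a) : Ti M δ F (T M δ F a) = a := by
  unfold Ti T
  rw [rhoi_rho (valid_eps hδ ha), eps_eps hδ ha]

include hδ in
theorem T_Ti {a : ℕ × ℕ} (ha : Valid M a) : T M δ F (Ti M δ F a) = a := by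
  unfold Ti T
  rw [eps_eps hδ (valid_rhoi ha), rho_rhoi ha]

/-- `c` leads to the final point `z` in `n` steps -/
def At (M : ℕ) (δ : ℕ → ℕ) (F : ℕ → Bool) (z n c : ℕ) : Prop :=
  c < M ∧ δ^[n] c = z ∧ F z = true ∧ ∀ i < n, F (δ^[i] c) = false

include hδ in
theorem At.lt_iter {z n c : ℕ} (h : At M δ F z n c) : ∀ i ≤ n, δ^[i] c < M := by
  intro i
  induction i with
  | zero => intro _; exact h.1
  | succ i ih =>
    intro hi
    rw [Function.iterate_succ_apply']
    exact hδ _ (ih (by omega)) (h.2.2.2 i (by omega))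

theorem At.inj {z n c : ℕ} (h : At M δ F z n c) (i j : ℕ) (hij : i < j) (hj : j ≤ n) :
    δ^[i] c ≠ δ^[j] c := by
  intro he
  have h1 : δ^[n] c = δ^[n - (j - i)] c := by
    calc δ^[n] c = δ^[n - j] (δ^[j] c) := by rw [← Function.iterate_add_apply]; congr 2; omega
      _ = δ^[n - j] (δ^[i] c) := by rw [he]
      _ = δ^[n - (j - i)] c := by rw [← Function.iterate_add_apply]; congr 2; omega
  have h2 := h.2.2.2 (n - (j - i)) (by omega)
  rw [← h1, h.2.1, h.2.2.1] at h2
  exact Bool.false_ne_true h2.symm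

include hδ in
theorem At.lt {z n c : ℕ} (h : At M δ F z n c) : n < M := by
  have h1 : (Finset.range (n + 1)).card ≤ (Finset.range M).card := by
    apply Finset.card_le_card_of_injOn (fun i => δ^[i] c)
    · intro i hi
      simp only [Finset.coe_range, Set.mem_Iio] at hi ⊢
      exact h.lt_iter hδ i (by omega)
    · intro i hi j hj he
      simp only [Finset.coe_range, Set.mem_Iio] at hi hj
      by_contra hne
      rcases lt_or_gt_of_ne hne with h' | h'
      · exact h.inj i j h' (by omega) he
      · exact h.inj j i h' (by omega) he.symm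
  simpa using h1

/-- reachability along the tour -/
def Reach (M : ℕ) (δ : ℕ → ℕ) (F : ℕ → Bool) (a b : ℕ × ℕ) : Prop := ∃ k, (T M δ F)^[k] a = b

theorem Reach.refl (a : ℕ × ℕ) : Reach M δ F a a := ⟨0, rfl⟩

theorem Reach.trans {a b c : ℕ × ℕ} (h : Reach M δ F a b) (h' : Reach M δ F b c) :
    Reach M δ F a c := by
  obtain ⟨k, hk⟩ := h
  obtain ⟨l, hl⟩ := h'
  exact ⟨l + k, by rw [Function.iterate_add_apply, hk, hl]⟩

theorem Reach.one {a b : ℕ × ℕ} (h : T M δ F a = b) : Reach M δ F a b := ⟨1, h⟩

include hδ in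
/-- traversing all predecessors of a point of the tree -/
theorem sweep (z : ℕ) : ∀ (r n b : ℕ), M ≤ n + r → At M δ F z n b →
    ∀ p ≤ M, ∀ q ≤ p, Reach M δ F (b, q) (b, p) := by
  intro r
  induction r with
  | zero =>
    intro n b hn h
    have := h.lt hδ
    omega
  | succ r ih =>
    intro n b hn h p hp
    induction p with
    | zero =>
      intro q hq
      have : q = 0 := by omega
      subst this
      exact Reach.refl _
    | succ p ihp =>
      intro q hq
      rcases Nat.lt_or_ge q (p + 1) with hq' | hq'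
      · refine (ihp (by omega) q (by omega)).trans ?_
        by_cases hc : F p = false ∧ δ p = b
        · have hAt : At M δ F z (n + 1) p := by
            refine ⟨by omega, ?_, h.2.2.1, ?_⟩
            · rw [Function.iterate_succ_apply, hc.2]; exact h.2.1
            · intro i hi
              cases i with
              | zero => exact hc.1
              | succ i =>
                rw [Function.iterate_succ_apply, hc.2]
                exact h.2.2.2 i (by omega)
          have h1 : T M δ F (b, p) = (p, 0) := by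
            have hp' : p ≠ M := by omega
            simp [T, eps, rho, hp', hc.1, hc.2]
          have h2 : T M δ F (p, M) = (b, p + 1) := by
            simp only [T, eps, rho, if_true, hc.1, hc.2, Bool.false_eq_true, if_false,
              Prod.mk.injEq, true_and]
            exact Nat.mod_eq_of_lt (by omega)
          exact (Reach.one h1).trans ((ih (n + 1) p (by omega) hAt M le_rfl 0 (by omega)).trans
            (Reach.one h2))
        · apply Reach.one
          have hp' : p ≠ M := by omega
          have he : eps M δ F (b, p) = (b, p) := by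
            unfold eps
            rw [if_neg hp', if_neg hc]
          simp only [T, he, rho, Prod.mk.injEq, true_and]
          exact Nat.mod_eq_of_lt (by omega)
      · have : q = p + 1 := by omega
        subst this
        exact Reach.refl _

include hδ in
/-- the tour from a point reaches the final point -/
theorem reach_final (z : ℕ) : ∀ (n c : ℕ), At M δ F z n c → Reach M δ F (c, M) (z, M) := by
  intro n
  induction n with
  | zero =>
    intro c h
    have : c = z := h.2.1
    rw [this]
    exact Reach.refl _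
  | succ n ih =>
    intro c h
    have hc : F c = false := h.2.2.2 0 (by omega)
    have hAt : At M δ F z n (δ c) := by
      refine ⟨hδ c h.1 hc, ?_, h.2.2.1, fun i hi => ?_⟩
      · rw [← Function.iterate_succ_apply]; exact h.2.1
      · rw [← Function.iterate_succ_apply]; exact h.2.2.2 (i + 1) (by omega)
    have h1 : T M δ F (c, M) = (δ c, c + 1) := by
      simp only [T, eps, rho, if_true, hc, Bool.false_eq_true, if_false, Prod.mk.injEq, true_and]
      have := h.1
      exact Nat.mod_eq_of_lt (by omega)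
    exact (Reach.one h1).trans ((sweep hδ z M n (δ c) (by omega) hAt M le_rfl (c + 1) h.1).trans
      (ih (δ c) hAt))

include hδ in
/-- the tour stays in the tree -/
theorem inv_T (z : ℕ) {a : ℕ × ℕ} (hv : Valid M a) (h : ∃ n, At M δ F z n a.1) :
    ∃ n, At M δ F z n (T M δ F a).1 := by
  obtain ⟨c, p⟩ := a
  obtain ⟨n, h⟩ := h
  simp only at h
  change ∃ n, At M δ F z n (eps M δ F (c, p)).1
  unfold eps
  simp only
  split_ifs with h3 h4 h5
  · exact ⟨n, h⟩
  · have hc : F c = false := by simpa using h4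
    cases n with
    | zero =>
      exfalso
      have : c = z := h.2.1
      rw [this, h.2.2.1] at hc
      exact Bool.false_ne_true hc.symm
    | succ n =>
      refine ⟨n, hδ c h.1 hc, ?_, h.2.2.1, fun i hi => ?_⟩
      · rw [← Function.iterate_succ_apply]; exact h.2.1
      · rw [← Function.iterate_succ_apply]; exact h.2.2.2 (i + 1) (by omega)
  · refine ⟨n + 1, ?_, ?_, h.2.2.1, fun i hi => ?_⟩
    · have := hv.2
      simp only at this ⊢
      omega
    · rw [Function.iterate_succ_apply, h5.2]; exact h.2.1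
    · cases i with
      | zero => exact h5.1
      | succ i =>
        rw [Function.iterate_succ_apply, h5.2]
        exact h.2.2.2 i (by omega)
  · exact ⟨n, h⟩

include hδ in
theorem inv_iter (z : ℕ) {a : ℕ × ℕ} (hv : Valid M a) (h : ∃ n, At M δ F z n a.1) (k : ℕ) :
    Valid M ((T M δ F)^[k] a) ∧ ∃ n, At M δ F z n ((T M δ F)^[k] a).1 := by
  induction k with
  | zero => exact ⟨hv, h⟩
  | succ k ih =>
    rw [Function.iterate_succ_apply']
    exact ⟨valid_T hδ ih.1, inv_T hδ z ih.1 ih.2⟩

theorem At.final {z n c : ℕ} (h : At M δ F z n c) (hc : F c = true) : c = z := by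
  cases n with
  | zero => exact h.2.1
  | succ n =>
    have := h.2.2.2 0 (by omega)
    simp only [Function.iterate_zero, id_eq] at this
    rw [hc] at this
    exact absurd this (by simp)

include hδ in
/-- The first final dart on the tour from `(c, M)` exists and is `(z, M)`. -/
theorem first_final {z n c : ℕ} (h : At M δ F z n c) :
    ∃ m, (T M δ F)^[m] (c, M) = (z, M) ∧
      ∀ i < m, ¬ (((T M δ F)^[i] (c, M)).2 = M ∧ F ((T M δ F)^[i] (c, M)).1 = true) := by
  classical
  have hex : ∃ m, ((T M δ F)^[m] (c, M)).2 = M ∧ F ((T M δ F)^[m] (c, M)).1 = true := by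
    obtain ⟨k, hk⟩ := reach_final hδ z n c h
    exact ⟨k, by rw [hk], by rw [hk]; exact h.2.2.1⟩
  refine ⟨Nat.find hex, ?_, fun i hi => Nat.find_min hex hi⟩
  have h1 := Nat.find_spec hex
  obtain ⟨_, n', h2⟩ := inv_iter hδ z (a := (c, M)) ⟨h.1, le_rfl⟩ ⟨n, h⟩ (Nat.find hex)
  have h3 := h2.final h1.2
  exact Prod.ext h3 h1.1

end Euler

end Pool.Agent.NPC.PIso
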