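import Pool.Agent.H550R2.Iso.Tour

/-!
# The main argument, for languages given by permutation problems
-/

namespace Pool.Agent.NPC.PIso

/-- `f` is a reduction of `A` to `B`. -/
def IsReduction (A B : Set (List Bool)) (f : List Bool → List Bool) : Prop :=
  PolyTime f ∧ ∀ x, x ∈ A ↔ f x ∈ B

/-- `f` is injective, and a polynomial-time algorithm `r` recognises and inverts its values:
`r (f x)` is the letter `true` followed by `x`, and `r y` is the empty string if `y` is not in the
range of `f`. -/
def PInvertible (f : List Bool → List Bool) : Prop :=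
  Function.Injective f ∧ ∃ r : List Bool → List Bool, PolyTime r ∧ (∀ x, r (f x) = true :: x) ∧
    ∀ y, y ∉ Set.range f → r y = []

/-- `f` is length nondecreasing. -/
def LengthNondecreasing (f : List Bool → List Bool) : Prop := ∀ x, x.length ≤ (f x).length

/-- `A` and `B` are `p`-isomorphic. -/
def PIsomorphic (A B : Set (List Bool)) : Prop :=
  ∃ h h' : List Bool → List Bool, PolyTime h ∧ PolyTime h' ∧ (∀ x, h' (h x) = x) ∧
    (∀ y, h (h' y) = y) ∧ ∀ x, x ∈ A ↔ h x ∈ B

/-- The statement in question Q1. -/
def Q1 : Prop := ∀ A B : Set (List Bool),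
  (∃ f, IsReduction A B f ∧ Function.Injective f ∧ LengthNondecreasing f ∧ PInvertible f) →
  (∃ g, IsReduction B A g ∧ Function.Injective g ∧ LengthNondecreasing g ∧ PInvertible g) →
  PIsomorphic A B

/-- A language presented by the orbits of a polynomial-time permutation of bit strings. -/
structure PermProblem (L : Set (List Bool)) where
  /-- the permutation -/
  T : List Bool → List Bool
  /-- its inverse -/
  Ti : List Bool → List Bool
  /-- the start of the orbit of an instance -/
  start : List Bool → List Bool
  /-- recognises starting points -/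
  isStart : List Bool → Bool
  /-- recognises final points -/
  fin : List Bool → Bool
  /-- recognises accepting points -/
  acc : List Bool → Bool
  poly_T : Poly T
  poly_Ti : Poly Ti
  poly_start : Poly start
  poly_isStart : Poly isStart
  poly_fin : Poly fin
  poly_acc : Poly acc
  T_Ti : ∀ d, T (Ti d) = d
  Ti_T : ∀ d, Ti (T d) = d
  len : ∀ d, (Ti d).length = d.length
  isStart_iff : ∀ d, isStart d = true ↔ ∃ x, d = start x
  disj : ∀ x x' i j, T^[i] (start x) = T^[j] (start x') → x = x'
  steps : ∀ x, ∃ m, fin (T^[m] (start x)) = true ∧ (∀ i < m, fin (T^[i] (start x)) = false) ∧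
    (x ∈ L ↔ acc (T^[m] (start x)) = true)

/-- the elements of the infinite tail of a point -/
def tl (d : List Bool) (k : ℕ) : List Bool :=
  true :: true :: (List.replicate k true ++ false :: d)

theorem tl_length (d : List Bool) (k : ℕ) : (tl d k).length = 3 + k + d.length := by
  simp [tl]; omega

theorem tl_inj {d d' : List Bool} {k k' : ℕ} (h : tl d k = tl d' k') : d = d' ∧ k = k' := by
  simp only [tl, List.cons.injEq, true_and] at h
  induction k generalizing k' with
  | zero =>
    cases k' with
    | zero => simpa using h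
    | succ k' => simp [List.replicate_succ] at h
  | succ k ih =>
    cases k' with
    | zero => simp [List.replicate_succ] at h
    | succ k' =>
      simp only [List.replicate_succ, List.cons_append, List.cons.injEq, true_and] at h
      obtain ⟨h1, h2⟩ := ih h
      exact ⟨h1, by rw [h2]⟩

namespace PermProblem

variable {L : Set (List Bool)} (D : PermProblem L)

/-- the number of steps to the first final point -/
noncomputable def m (x : List Bool) : ℕ := (D.steps x).choose

theorem fin_m (x : List Bool) : D.fin (D.T^[D.m x] (D.start x)) = true :=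
  (D.steps x).choose_spec.1

theorem fin_lt (x : List Bool) : ∀ i < D.m x, D.fin (D.T^[i] (D.start x)) = false :=
  (D.steps x).choose_spec.2.1

theorem acc_m (x : List Bool) : x ∈ L ↔ D.acc (D.T^[D.m x] (D.start x)) = true :=
  (D.steps x).choose_spec.2.2

/-- rejecting final points -/
def R (d : List Bool) : Bool := D.fin d && !(D.acc d)

/-- the cut points of the second map -/
def Q (d : List Bool) : Bool := D.isStart d || D.fin (D.Ti d)

theorem T_inj : Function.Injective D.T := Function.LeftInverse.injective D.Ti_T

theorem len_T (d : List Bool) : (D.T d).length = d.length := by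
  have := D.len (D.T d)
  rw [D.Ti_T] at this
  exact this.symm

theorem len_iter (i : ℕ) (d : List Bool) : (D.T^[i] d).length = d.length := by
  induction i with
  | zero => rfl
  | succ i ih => rw [Function.iterate_succ_apply', D.len_T, ih]

theorem start_inj : Function.Injective D.start := fun x x' h => D.disj x x' 0 0 h

/-- the orbit does not come back to the start before the final point -/
theorem ne_start (x : List Bool) (i : ℕ) (h0 : 0 < i) (hi : i ≤ D.m x) :
    D.T^[i] (D.start x) ≠ D.start x := by
  intro h
  have h1 : D.T^[D.m x] (D.start x) = D.T^[D.m x - i] (D.start x) := by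
    conv_lhs => rw [show D.m x = (D.m x - i) + i by omega]
    rw [Function.iterate_add_apply, h]
  have h2 := D.fin_m x
  rw [h1, D.fin_lt x (D.m x - i) (by omega)] at h2
  exact Bool.false_ne_true h2

theorem isStart_iter (x : List Bool) (i : ℕ) (h0 : 0 < i) (hi : i ≤ D.m x) :
    D.isStart (D.T^[i] (D.start x)) = false := by
  rw [← Bool.not_eq_true, D.isStart_iff]
  rintro ⟨x', hx'⟩
  have : x = x' := D.disj x x' i 0 hx'
  subst this
  exact D.ne_start x i h0 hi hx'

theorem iter_inj (x : List Bool) (i j : ℕ) (hi : i ≤ D.m x) (hj : j ≤ D.m x)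
    (h : D.T^[i] (D.start x) = D.T^[j] (D.start x)) : i = j := by
  by_contra hne
  wlog hlt : i < j generalizing i j with H
  · exact H j i hj hi h.symm (Ne.symm hne) (by omega)
  · have h1 : D.T^[j] (D.start x) = D.T^[i] (D.T^[j - i] (D.start x)) := by
      rw [← Function.iterate_add_apply]; congr 2; omega
    rw [h1] at h
    have h2 := (D.T_inj.iterate i) h
    exact D.ne_start x (j - i) (by omega) (by omega) h2.symm

/-- the `B`-side of the finite part of a component -/
noncomputable def PB (x : List Bool) : Finset (List Bool) :=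
  (Finset.range (D.m x + 1)).image (fun i => false :: D.T^[i] (D.start x))

/-- the `A`-side of the finite part of a component -/
noncomputable def PA (x : List Bool) : Finset (List Bool) :=
  if D.acc (D.T^[D.m x] (D.start x)) then D.PB x
  else (Finset.range (D.m x)).image (fun i => false :: D.T^[i] (D.start x))

theorem mem_PB {x w : List Bool} :
    w ∈ D.PB x ↔ ∃ i ≤ D.m x, w = false :: D.T^[i] (D.start x) := by
  simp only [PB, Finset.mem_image, Finset.mem_range]
  constructor
  · rintro ⟨i, hi, rfl⟩; exact ⟨i, by omega, rfl⟩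
  · rintro ⟨i, hi, rfl⟩; exact ⟨i, by omega, rfl⟩

theorem mem_PA {x w : List Bool} : w ∈ D.PA x ↔ ∃ i, w = false :: D.T^[i] (D.start x) ∧
    (i < D.m x ∨ (i = D.m x ∧ D.acc (D.T^[D.m x] (D.start x)) = true)) := by
  unfold PA
  split_ifs with h
  · rw [mem_PB]
    constructor
    · rintro ⟨i, hi, rfl⟩
      refine ⟨i, rfl, ?_⟩
      rcases lt_or_eq_of_le hi with h1 | h1
      · exact Or.inl h1
      · exact Or.inr ⟨h1, h⟩
    · rintro ⟨i, rfl, hi⟩
      refine ⟨i, ?_, rfl⟩
      rcases hi with h1 | h1
      · exact h1.le
      · exact h1.1.le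
  · simp only [Finset.mem_image, Finset.mem_range]
    constructor
    · rintro ⟨i, hi, rfl⟩; exact ⟨i, rfl, Or.inl hi⟩
    · rintro ⟨i, rfl, hi⟩
      rcases hi with h1 | h1
      · exact ⟨i, h1, rfl⟩
      · exact absurd h1.2 h

theorem PA_sub_PB {x w : List Bool} (h : w ∈ D.PA x) : w ∈ D.PB x := by
  rw [mem_PA] at h
  rw [mem_PB]
  obtain ⟨i, rfl, hi⟩ := h
  exact ⟨i, by omega, rfl⟩

theorem card_PB (x : List Bool) : (D.PB x).card = D.m x + 1 := by
  unfold PB
  rw [Finset.card_image_of_injOn, Finset.card_range]
  intro i hi j hj h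
  simp only [Finset.coe_range, Set.mem_Iio] at hi hj
  simp only [List.cons.injEq, true_and] at h
  exact D.iter_inj x i j (by omega) (by omega) h

theorem card_PA_acc (x : List Bool) (h : x ∈ L) : (D.PA x).card = (D.PB x).card := by
  unfold PA
  rw [if_pos ((D.acc_m x).1 h)]

theorem card_PA_rej (x : List Bool) (h : x ∉ L) : (D.PA x).card + 1 = (D.PB x).card := by
  unfold PA
  rw [if_neg (fun h' => h ((D.acc_m x).2 h')), D.card_PB, Finset.card_image_of_injOn,
    Finset.card_range]
  intro i hi j hj h
  simp only [Finset.coe_range, Set.mem_Iio] at hi hj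
  simp only [List.cons.injEq, true_and] at h
  exact D.iter_inj x i j (by omega) (by omega) h

/-- the component of an instance -/
def P (x : List Bool) : List Bool ⊕ List Bool → Prop
  | Sum.inl w => (∃ k, w = tl (D.start x) k) ∨ w ∈ D.PA x
  | Sum.inr w => (∃ k, w = tl (D.start x) k) ∨ w ∈ D.PB x

theorem tl_not_PB (x : List Bool) (k : ℕ) : tl (D.start x) k ∉ D.PB x := by
  rw [mem_PB]
  rintro ⟨i, _, h⟩
  simp [tl] at h

theorem disjP (x x' : List Bool) (u : List Bool ⊕ List Bool) (h : D.P x u) (h' : D.P x' u) :
    x = x' := by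
  have key : ∀ w, ((∃ k, w = tl (D.start x) k) ∨ w ∈ D.PB x) →
      ((∃ k, w = tl (D.start x') k) ∨ w ∈ D.PB x') → x = x' := by
    intro w h h'
    rcases h with ⟨k, rfl⟩ | h
    · rcases h' with ⟨k', h'⟩ | h'
      · exact D.start_inj (tl_inj h').1
      · rw [mem_PB] at h'
        obtain ⟨i, _, h'⟩ := h'
        simp [tl] at h'
    · rw [mem_PB] at h
      obtain ⟨i, _, rfl⟩ := h
      rcases h' with ⟨k', h'⟩ | h'
      · simp [tl] at h'
      · rw [mem_PB] at h'
        obtain ⟨j, _, h'⟩ := h'
        simp only [List.cons.injEq, true_and] at h'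
        exact D.disj _ _ _ _ h'
  match u with
  | Sum.inl w =>
    exact key w (h.imp_right D.PA_sub_PB) (h'.imp_right D.PA_sub_PB)
  | Sum.inr w => exact key w h h'

theorem fA_tl (d : List Bool) (k : ℕ) : fA D.R (tl d k) = tl d k := by
  simp [fA, tl]

theorem gB_tl (d : List Bool) (k : ℕ) : gB D.Q D.Ti (tl d k) = tl d (k + 1) := by
  simp [gB, tl, List.replicate_succ]

theorem fA_of_eq {w : List Bool} {d : List Bool} {k : ℕ} (h : fA D.R w = tl d k) :
    w = tl d k := by
  match w with
  | [] => simp [fA, tl] at h
  | [true] => simp [fA, tl] at h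
  | true :: true :: u => simpa [fA] using h
  | true :: false :: u => simp [fA, tl] at h
  | false :: e => cases hR : D.R e <;> simp [fA, tl, hR] at h

theorem fA_of_eq_false {w d : List Bool} (h : fA D.R w = false :: d) :
    w = false :: d ∧ D.R d = false := by
  match w with
  | [] => simp [fA] at h
  | [true] => simp [fA] at h
  | true :: true :: u => simp [fA] at h
  | true :: false :: u => simp [fA] at h
  | false :: e =>
    cases hR : D.R e
    · simp [fA, hR] at h
      subst h
      exact ⟨rfl, hR⟩
    · simp [fA, hR] at h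

theorem gB_of_eq {w : List Bool} {d : List Bool} {k : ℕ} (h : gB D.Q D.Ti w = tl d k) :
    (k = 0 ∧ w = false :: d) ∨ ∃ j, k = j + 1 ∧ w = tl d j := by
  match w with
  | [] => simp [gB, tl] at h
  | [true] => simp [gB, tl] at h
  | true :: true :: u =>
    cases k with
    | zero => simp [gB, tl] at h
    | succ k =>
      simp only [gB, lcase_cons, cond_true, tl, List.replicate_succ, List.cons_append,
        List.cons.injEq, true_and] at h
      exact Or.inr ⟨k, rfl, by rw [h]; rfl⟩
  | true :: false :: u => simp [gB, tl] at h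
  | false :: e =>
    cases hQ : D.Q e
    · simp [gB, tl, hQ] at h
    · cases k with
      | zero =>
        simp [gB, tl, hQ] at h
        subst h
        exact Or.inl ⟨rfl, rfl⟩
      | succ k => simp [gB, tl, hQ, List.replicate_succ] at h

theorem gB_of_eq_false {w d : List Bool} (h : gB D.Q D.Ti w = false :: d) :
    w = false :: D.T d ∧ D.Q (D.T d) = false := by
  match w with
  | [] => simp [gB] at h
  | [true] => simp [gB] at h
  | true :: true :: u => simp [gB] at h
  | true :: false :: u => simp [gB] at h
  | false :: e =>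
    cases hQ : D.Q e
    · simp [gB, hQ] at h
      subst h
      rw [D.T_Ti]
      exact ⟨rfl, hQ⟩
    · simp [gB, hQ] at h

/-- the components are saturated -/
theorem satP (x : List Bool) (u v : List Bool ⊕ List Bool)
    (huv : Adj (fA D.R) (gB D.Q D.Ti) u v) : D.P x u ↔ D.P x v := by
  cases huv with
  | f w =>
    constructor
    · rintro (⟨k, rfl⟩ | h)
      · exact Or.inl ⟨k, D.fA_tl _ _⟩
      · right
        rw [mem_PA] at h
        obtain ⟨i, rfl, hi⟩ := h
        rw [mem_PB]
        refine ⟨i, by omega, ?_⟩
        have hR : D.R (D.T^[i] (D.start x)) = false := by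
          unfold R
          rcases hi with hi | ⟨rfl, hi⟩
          · rw [D.fin_lt x i hi]; rfl
          · rw [hi]; simp
        simp [fA, hR]
    · rintro (⟨k, hk⟩ | h)
      · exact Or.inl ⟨k, D.fA_of_eq hk⟩
      · right
        rw [mem_PB] at h
        obtain ⟨i, hi, h⟩ := h
        obtain ⟨rfl, hR⟩ := D.fA_of_eq_false h
        rw [mem_PA]
        refine ⟨i, rfl, ?_⟩
        rcases lt_or_eq_of_le hi with h1 | rfl
        · exact Or.inl h1
        · right
          refine ⟨rfl, ?_⟩
          unfold R at hR
          rw [D.fin_m] at hR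
          simpa using hR
  | g w =>
    constructor
    · rintro (⟨k, rfl⟩ | h)
      · exact Or.inl ⟨k + 1, D.gB_tl _ _⟩
      · rw [mem_PB] at h
        obtain ⟨i, hi, rfl⟩ := h
        cases i with
        | zero =>
          left
          refine ⟨0, ?_⟩
          have hQ : D.Q (D.start x) = true := by
            unfold Q
            rw [(D.isStart_iff _).2 ⟨x, rfl⟩]; rfl
          simp [gB, hQ, tl]
        | succ i =>
          right
          have e : D.T^[i + 1] (D.start x) = D.T (D.T^[i] (D.start x)) :=
            Function.iterate_succ_apply' _ _ _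
          have hQ : D.Q (D.T^[i + 1] (D.start x)) = false := by
            unfold Q
            rw [D.isStart_iter x (i + 1) (by omega) hi, e, D.Ti_T, D.fin_lt x i (by omega)]
            rfl
          rw [mem_PA]
          refine ⟨i, ?_, Or.inl (by omega)⟩
          simp only [gB, lcase_cons, cond_false, hQ]
          rw [e, D.Ti_T]
    · rintro (⟨k, hk⟩ | h)
      · rcases D.gB_of_eq hk with ⟨rfl, rfl⟩ | ⟨j, rfl, rfl⟩
        · right
          rw [mem_PB]
          exact ⟨0, by omega, rfl⟩
        · exact Or.inl ⟨j, rfl⟩
      · rw [mem_PA] at h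
        obtain ⟨i, hw, hi⟩ := h
        obtain ⟨rfl, hQ⟩ := D.gB_of_eq_false hw
        right
        rw [mem_PB]
        have e : D.T^[i + 1] (D.start x) = D.T (D.T^[i] (D.start x)) :=
            Function.iterate_succ_apply' _ _ _
        refine ⟨i + 1, ?_, by rw [e]⟩
        rcases hi with hi | ⟨rfl, _⟩
        · omega
        · exfalso
          unfold Q at hQ
          rw [D.Ti_T, D.fin_m] at hQ
          simp at hQ

theorem poly_R : Poly D.R := Poly.and D.poly_fin (Poly.not D.poly_acc)

theorem poly_Q : Poly D.Q := Poly.or D.poly_isStart (D.poly_fin.comp D.poly_Ti)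

end PermProblem

end Pool.Agent.NPC.PIso
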