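import Pool.Agent.H550R2.Iso.RunS

/-!
# Iterating a polynomial-time function on short data is possible in polynomial space
-/

namespace Pool.Agent.NPC.PIso

open Turing
open Function (update)

/-- looking at the flag of a coded pair -/
def testC : Cmd ℕ :=
  Cmd.seq (Cmd.pop 0) (Cmd.seq (Cmd.cases 0 Cmd.skip Cmd.skip (Cmd.pop 1)) (Cmd.push 0 true))

theorem test_runs {α : Type} [TEnc α] (b : Bool) (a : α) :
    Runs testC (st (bits (b, a)) [true] []) (st (bits (b, a)) (if b = true then [] else [true]) [])
      5 := by
  cases b with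
  | false =>
    have e : bits (false, a) = true :: false :: bits a := rfl
    rw [e]
    have a1 : Runs (Cmd.pop 0) (st (true :: false :: bits a) [true] [])
        (st (false :: bits a) [true] []) 1 := (Runs.pop _ 0).conv rfl (by simp) le_rfl
    have a2 : Runs (Cmd.push 0 true) (st (false :: bits a) [true] [])
        (st (true :: false :: bits a) [true] []) 1 := (Runs.push _ 0 true).conv rfl (by simp) le_rfl
    exact (a1.seq ((Runs.casesFalse (l := bits a) (by simp) (Runs.skip _)).seq a2)).conv rfl
      (by simp) (by norm_num)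
  | true =>
    have e : bits (true, a) = true :: true :: false :: false :: bits a := rfl
    rw [e]
    have a1 : Runs (Cmd.pop 0) (st (true :: true :: false :: false :: bits a) [true] [])
        (st (true :: false :: false :: bits a) [true] []) 1 :=
      (Runs.pop _ 0).conv rfl (by simp) le_rfl
    have a3 : Runs (Cmd.pop 1) (st (true :: false :: false :: bits a) [true] [])
        (st (true :: false :: false :: bits a) [] []) 1 :=
      (Runs.pop _ 1).conv rfl (by simp) le_rfl
    have a2 : Runs (Cmd.push 0 true) (st (true :: false :: false :: bits a) [] [])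
        (st (true :: true :: false :: false :: bits a) [] []) 1 :=
      (Runs.push _ 0 true).conv rfl (by simp) le_rfl
    exact (a1.seq ((Runs.casesTrue (l := false :: false :: bits a) (by simp) a3).seq a2)).conv rfl
      (by simp) (by norm_num)

theorem Runs.toRunS {c : Cmd ℕ} {s s' : ℕ → List Bool} {t M : ℕ} (h : Runs c s s' t)
    (hM : ∀ k, (s k).length + t ≤ M) : RunS M c s s' := by
  obtain ⟨t', ht', h⟩ := h
  exact Run.toRunS h fun k => by have := hM k; omega

theorem st_le {x y z : List Bool} {M : ℕ} (hx : x.length ≤ M) (hy : y.length ≤ M)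
    (hz : z.length ≤ M) : ∀ k, (st x y z k).length ≤ M := by
  intro k
  match k with
  | 0 => exact hx
  | 1 => exact hy
  | 2 => exact hz
  | k + 3 => simp [st]

section Iter

variable {α : Type} [TEnc α] (G : α → α) (stop : α → Bool)

/-- one iteration -/
def G2 (p : Bool × α) : Bool × α := (stop p.2, bif stop p.2 then p.2 else G p.2)

theorem loop_space (cG : Cmd ℕ) (pG : Polynomial ℕ)
    (hG : ∀ p : Bool × α, Runs cG (inp (bits p)) (inp (bits (G2 G stop p))) (pG.eval (bits p).length))
    (Q M : ℕ) (hM : (4 + Q) + (pG.eval (4 + Q) + 5) ≤ M) :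
    ∀ (n : ℕ) (a : α) (b : Bool), stop (G^[n] a) = true → (∀ i < n, stop (G^[i] a) = false) →
      (∀ i ≤ n, sz (G^[i] a) ≤ Q) →
      RunS M (Cmd.loop 1 (Cmd.seq (ev cG) testC)) (st (bits (b, a)) [true] [])
        (st (bits (true, G^[n] a)) [] []) := by
  have hbody : ∀ (a : α) (b : Bool), sz a ≤ Q →
      RunS M (Cmd.seq (ev cG) testC) (st (bits (b, a)) [true] [])
        (st (bits (G2 G stop (b, a))) (if stop a = true then [] else [true]) []) := by
    intro a b ha
    have h1 := ev_runs (hG (b, a)) [true]
    have h2 := test_runs (stop a) (bif stop a then a else G a)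
    have h3 := h1.seq h2
    have h4 : (bits (b, a)).length ≤ 4 + Q := by
      rw [bits_length, sz_pair]
      have := sz_bool_le b
      omega
    refine Runs.toRunS h3 ?_
    have h5 := eval_mono pG h4
    intro k
    have h6 := st_le (x := bits (b, a)) (y := [true]) (z := []) (M := 4 + Q) h4 (by simp; omega)
      (by simp) k
    omega
  intro n
  induction n with
  | zero =>
    intro a b h1 _ h3
    have h4 := hbody a b (h3 0 le_rfl)
    simp only [Function.iterate_zero, id_eq] at h1
    refine RunS.loopCons (by simp) h4 ?_
    have e : G2 G stop (b, a) = (true, a) := by simp [G2, h1]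
    rw [e, h1]
    refine RunS.loopNil ?_ (by simp)
    have := h4.bd.2
    rw [e, h1] at this
    exact this
  | succ n ih =>
    intro a b h1 h2 h3
    have h4 := hbody a b (h3 0 (by omega))
    have h5 : stop a = false := h2 0 (by omega)
    have e : G2 G stop (b, a) = (false, G a) := by simp [G2, h5]
    rw [e, h5] at h4
    refine RunS.loopCons (by simp) h4 ?_
    rw [Function.iterate_succ_apply]
    refine ih (G a) false ?_ ?_ ?_
    · rw [← Function.iterate_succ_apply]; exact h1
    · intro i hi; rw [← Function.iterate_succ_apply]; exact h2 (i + 1) (by omega)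
    · intro i hi; rw [← Function.iterate_succ_apply]; exact h3 (i + 1) (by omega)

theorem inPSPACE_iter {L : Set (List Bool)} {acc : α → Bool} {init : List Bool → α}
    (hG : Poly G) (hstop : Poly stop) (hacc : Poly acc) (hinit : Poly init) (q : Polynomial ℕ)
    (h : ∀ x, ∃ n, stop (G^[n] (init x)) = true ∧ (∀ i < n, stop (G^[i] (init x)) = false) ∧
      (∀ i ≤ n, sz (G^[i] (init x)) ≤ q.eval x.length) ∧
      (x ∈ L ↔ acc (G^[n] (init x)) = true)) : InPSPACE L := by
  have hG2 : Poly (G2 G stop) := Poly.pair (hstop.comp (Poly.snd Poly.id))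
    (Poly.cond (hstop.comp (Poly.snd Poly.id)) (Poly.snd Poly.id) (hG.comp (Poly.snd Poly.id)))
  obtain ⟨cG, pG, hcG⟩ := hG2
  have hI : Poly (fun x : List Bool => (false, init x)) := Poly.pair (Poly.const false) hinit
  have hI' : PC (fun x : List Bool => x) (bits : Bool × α → List Bool) (fun x => (false, init x)) :=
    PC.comp (g := fun x : List Bool => (false, init x)) (f := fun x => x) hI PC.rawIn
  obtain ⟨cI, pI, hcI⟩ := hI'
  have hA : Poly (fun p : Bool × α => acc p.2) := hacc.comp (Poly.snd Poly.id)
  have hA' : PC (bits : Bool × α → List Bool) (fun x : List Bool => x) (fun p => [acc p.2]) :=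
    PC.comp (g := fun b => [b]) (f := fun p : Bool × α => acc p.2) PC.rawBool hA
  obtain ⟨cF, pF, hcF⟩ := hA'
  let prog : Cmd ℕ := Cmd.seq (ev cI) (Cmd.seq (Cmd.push 1 true)
    (Cmd.seq (Cmd.loop 1 (Cmd.seq (ev cG) testC)) (ev cF)))
  let p : Polynomial ℕ := Polynomial.X + pI + (4 + q) + pG.comp (4 + q) + pF.comp (4 + q) + 10
  have hp : ∀ n, p.eval n = n + pI.eval n + (4 + q.eval n) + pG.eval (4 + q.eval n) +
      pF.eval (4 + q.eval n) + 10 := by
    intro n
    simp [p]
  have hrun : ∀ x : List Bool, ∃ b : Bool, (b = true ↔ x ∈ L) ∧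
      RunS (p.eval x.length) prog (inp x) (inp [b]) := by
    intro x
    obtain ⟨n, h1, h2, h3, h4⟩ := h x
    refine ⟨acc (G^[n] (init x)), h4.symm, ?_⟩
    have hpx := hp x.length
    have hb1 : (bits (false, init x)).length ≤ 4 + q.eval x.length := by
      rw [bits_length, sz_pair]
      have := sz_bool_le false
      have := h3 0 (by omega)
      simp only [Function.iterate_zero, id_eq] at this
      omega
    have hb2 : (bits (true, G^[n] (init x))).length ≤ 4 + q.eval x.length := by
      rw [bits_length, sz_pair]
      have := sz_bool_le true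
      have := h3 n le_rfl
      omega
    rw [inp_eq_st, inp_eq_st]
    refine RunS.seq (s' := st (bits (false, init x)) [] [])
      (Runs.toRunS (ev_runs (hcI x) []) ?_) (RunS.seq
      (s' := st (bits (false, init x)) [true] []) ?_ (RunS.seq
      (s' := st (bits (true, G^[n] (init x))) [] [])
      (loop_space G stop cG pG hcG (q.eval x.length) _ ?_ n (init x) false h1 h2 h3)
      (Runs.toRunS (ev_runs (hcF (true, G^[n] (init x))) []) ?_)))
    · intro k
      have := st_le (x := x) (y := []) (z := []) (M := x.length) le_rfl (by simp) (by simp) k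
      change (st x [] [] k).length + pI.eval x.length ≤ _
      omega
    · refine Runs.toRunS ((Runs.push _ 1 true).conv rfl (by simp) le_rfl) ?_
      intro k
      have := st_le (x := bits (false, init x)) (y := []) (z := []) (M := 4 + q.eval x.length) hb1
        (by simp) (by simp) k
      omega
    · omega
    · intro k
      have h5 := st_le (x := bits (true, G^[n] (init x))) (y := []) (z := [])
        (M := 4 + q.eval x.length) hb2 (by simp) (by simp) k
      have h6 := eval_mono pF hb2
      omega
  refine ⟨(prog.map (Fin.ofNat (prog.bd + 1))).toTM, Equiv.refl Bool, Equiv.refl Bool, p,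
    fun x => ?_⟩
  obtain ⟨b, hb, hr⟩ := hrun x
  have h1 := hr.restrict (n := prog.bd) (by omega)
  have e1 : ∀ y : List Bool, (fun i : Fin (prog.bd + 1) => (inp y : ℕ → List Bool) i) =
      (inp y : Fin (prog.bd + 1) → List Bool) := by
    intro y
    funext i
    by_cases hi : i = 0
    · subst hi; simp [inp]
    · have : (i : ℕ) ≠ 0 := fun h => hi (Fin.ext h)
      simp [inp, hi, this]
  rw [e1, e1] at h1
  obtain ⟨⟨t, ht⟩, hsp⟩ := toTM_space h1
  have hx : x.map (Equiv.refl Bool).symm = x := List.map_id x
  constructor
  · refine ⟨t, b, hb, ?_⟩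
    have := ht
    exact (congrArg (fun y => (flip bind (prog.map (Fin.ofNat (prog.bd + 1))).toTM.step)^[t]
      (some (initList (prog.map (Fin.ofNat (prog.bd + 1))).toTM y))) hx).trans ht
  · intro i c hc
    refine hsp i c ?_
    exact (congrArg (fun y => (flip bind (prog.map (Fin.ofNat (prog.bd + 1))).toTM.step)^[i]
      (some (initList (prog.map (Fin.ofNat (prog.bd + 1))).toTM y))) hx).symm.trans hc

end Iter

end Pool.Agent.NPC.PIso
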