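import Pool.Agent.H550R2.Iso.Space

/-!
# Polynomial space and iteration of polynomial-time functions
-/

namespace Pool.Agent.NPC.PIso

open Turing
open Function (update)
open Pool.Agent.H642R2.TMSim

theorem iter_none {α : Type} (f : α → Option α) (n : ℕ) :
    (flip bind f)^[n] (none : Option α) = none := by
  induction n with
  | zero => rfl
  | succ n ih => rw [Function.iterate_succ_apply]; exact ih

theorem poly_regsList {K : Type} [DecidableEq K] [Fintype K] {Γ : K → Type}
    (A : Set (Σ k, Γ k)) {b : ℕ} (C : Cod A b) (w : List Bool) (k₀ : K) (g : Bool → Γ k₀) :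
    ∀ rs : List ℕ, Poly (fun x : List Bool => rs.map (R A C w (one k₀ (x.map g)))) := by
  intro rs
  induction rs with
  | nil => exact Poly.const []
  | cons r rs ih =>
    simp only [List.map_cons]
    refine Poly.cons ?_ ih
    by_cases h1 : r = 1
    · subst h1
      simp only [R_one]
      exact Poly.const w
    · by_cases h2 : ∃ k : K, idx k = r
      · obtain ⟨k, rfl⟩ := h2
        simp only [R_idx]
        by_cases hk : k = k₀
        · subst hk
          have h3 : Poly (fun x : List Bool => x.flatMap (fun b => bif b then C.code ⟨k, g true⟩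
              else C.code ⟨k, g false⟩)) :=
            Poly.flatMap (F := fun _ b => bif b then C.code ⟨k, g true⟩ else C.code ⟨k, g false⟩)
              Poly.id (Poly.cond (Poly.snd Poly.id) (Poly.const _) (Poly.const _))
          refine h3.congr fun x => ?_
          simp only [one, Function.update_self, encS, List.flatMap_map]
          congr 1
          funext b
          cases b <;> rfl
        · refine (Poly.const []).congr fun x => ?_
          simp [one, Function.update_of_ne hk, encS]
      · push Not at h2
        refine (Poly.const []).congr fun x => ?_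
        rw [R_other _ _ _ _ _ h1 h2]

theorem encS_length {K : Type} {Γ : K → Type} (A : Set (Σ k, Γ k)) {b : ℕ} (C : Cod A b) (k : K)
    (l : List (Γ k)) : (encS A C k l).length = b * l.length := by
  induction l with
  | nil => simp [encS]
  | cons x l ih =>
    have : encS A C k (x :: l) = C.code ⟨k, x⟩ ++ encS A C k l := by simp [encS]
    rw [this, List.length_append, C.len, ih, List.length_cons]; ring

/-- A language in `PSPACE` is given by iterating a polynomial-time function. -/
theorem exists_sys {L : Set (List Bool)} (h : InPSPACE L) : Nonempty (Sys L) := by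
  classical
  obtain ⟨tm, ein, eout, p, h⟩ := h
  have := tm.kFin
  have := tm.ΛFin
  have := tm.σFin
  have := tm.Γk₀Fin
  let A : Set (Σ k, tm.Γ k) := ((⋃ l, pushes (tm.m l)) ∪
    Set.range (fun a : Bool => (⟨tm.k₀, ein.symm a⟩ : Σ k, tm.Γ k))) ∪
    Set.range (fun a : Bool => (⟨tm.k₁, eout.symm a⟩ : Σ k, tm.Γ k))
  have hA : A.Finite :=
    ((Set.finite_iUnion fun l => pushes_finite _).union (Set.finite_range _)).union
      (Set.finite_range _)
  obtain ⟨b, hb, ⟨C⟩⟩ := exists_cod A hA
  obtain ⟨bs, hbs, ⟨D⟩⟩ := exists_cod (Set.univ : Set (tm.Λ × tm.σ)) Set.finite_univ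
  have hm : ∀ l, pushes (tm.m l) ⊆ A := fun l x hx =>
    Or.inl (Or.inl (Set.mem_iUnion.2 ⟨l, hx⟩))
  let n : ℕ := max (body A C D tm.m).bd (3 + Fintype.card tm.K)
  have hn1 : (body A C D tm.m).bd ≤ n := le_max_left _ _
  have hn2 : 3 + Fintype.card tm.K ≤ n := le_max_right _ _
  have hidx : ∀ k : tm.K, idx k < n := by
    intro k
    have : idx k < 3 + Fintype.card tm.K := by
      unfold idx
      have := (Fintype.equivFin tm.K k).2
      omega
    omega
  let rg : tm.Cfg → List (List Bool) := regs A C D n
  let cfg : List Bool → ℕ → Option tm.Cfg := fun x i =>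
    (flip bind tm.step)^[i] (some (initList tm (x.map ein.symm)))
  have hcfg_succ : ∀ x i, cfg x (i + 1) = (cfg x i).bind tm.step := by
    intro x i
    simp only [cfg]
    rw [Function.iterate_succ_apply']
    rfl
  let δ : ℕ → ℕ := fun c => toN (den (body A C D tm.m) (ofN c))
  have hδ : ∀ (l : tm.Λ) (v : tm.σ) (S : ∀ k, List (tm.Γ k)), Good A S →
      δ (toN (rg ⟨some l, v, S⟩)) = toN (rg (TM2.stepAux (tm.m l) v S)) := by
    intro l v S hG
    simp only [δ, ofN_toN]
    congr 1
    exact den_regs A C D hb tm.m hm n hn1 l v S hG
  let c₀ : List Bool → ℕ := fun x => toN (rg (initList tm (x.map ein.symm)))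
  have hinit : ∀ x : List Bool, rg (initList tm (x.map ein.symm)) =
      (List.range n).map (R A C (D.code (tm.main, tm.initialState))
        (one tm.k₀ (x.map ein.symm))) := by
    intro x
    rw [initList_stk]
    rfl
  have hpc₀ : Poly c₀ := by
    refine poly_toN.comp ((poly_regsList A C (D.code (tm.main, tm.initialState)) tm.k₀
      ein.symm (List.range n)).congr fun x => ?_)
    rw [hinit]
  have hgood0 : ∀ x : List Bool, Good A (initList tm (x.map ein.symm)).stk := by
    intro x k y hy
    rw [initList_stk] at hy
    simp only at hy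
    by_cases hk : k = tm.k₀
    · subst hk
      rw [one, Function.update_self, List.mem_map] at hy
      obtain ⟨a, _, rfl⟩ := hy
      exact Or.inl (Or.inr ⟨a, rfl⟩)
    · rw [one, Function.update_of_ne hk] at hy; simp at hy
  -- the run in the coding
  have hrun : ∀ x i c, cfg x i = some c → Good A c.stk ∧ δ^[i] (c₀ x) = toN (rg c) := by
    intro x i
    induction i with
    | zero =>
      intro c hc
      have : c = initList tm (x.map ein.symm) := by
        have h0 : cfg x 0 = some (initList tm (x.map ein.symm)) := rfl
        rw [h0] at hc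
        exact (Option.some.inj hc).symm
      subst this
      exact ⟨hgood0 x, rfl⟩
    | succ i ih =>
      intro c hc
      rw [hcfg_succ] at hc
      obtain ⟨c', hc', hstep⟩ := Option.bind_eq_some_iff.1 hc
      obtain ⟨hG, hδi⟩ := ih c' hc'
      obtain ⟨l, v, S⟩ := c'
      cases l with
      | none => exact absurd hstep (by simp [FinTM2.step, TM2.step])
      | some l =>
        have h0 : TM2.stepAux (tm.m l) v S = c := by
          have : tm.step ⟨some l, v, S⟩ = some (TM2.stepAux (tm.m l) v S) := rfl
          rw [this] at hstep
          exact Option.some.inj hstep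
        subst h0
        refine ⟨(body_runs A C D hb tm.m hm l v S hG).1, ?_⟩
        rw [Function.iterate_succ_apply', hδi, hδ l v S hG]
  let H : ℕ → Bool := fun c => decide ((ofN c).getD 1 [] = [])
  have hH : ∀ c : tm.Cfg, H (toN (rg c)) = decide (c.l = none) := by
    intro c
    simp only [H, ofN_toN]
    rw [decide_eq_decide]
    have : (rg c).getD 1 [] = stc D c := by
      change ((List.range n).map (R A C (stc D c) c.stk)).getD 1 [] = _
      rw [getD_range_map n _ 1 (by omega), R_one]
    rw [this]
    obtain ⟨l, v, S⟩ := c
    cases l with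
    | none => simp [stc]
    | some l =>
      simp only [stc, reduceCtorEq, iff_false]
      intro h0
      have := congrArg List.length h0
      rw [D.len] at this
      simp at this
      omega
  let Ac : ℕ → Bool := fun c => decide ((ofN c).getD (idx tm.k₁) [] =
    C.code ⟨tm.k₁, eout.symm true⟩)
  have hAc : ∀ β : Bool, Ac (toN (rg (haltList tm [eout.symm β]))) = β := by
    intro β
    simp only [Ac, ofN_toN]
    have : (rg (haltList tm [eout.symm β])).getD (idx tm.k₁) [] =
        C.code ⟨tm.k₁, eout.symm β⟩ := by
      rw [haltList_stk]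
      change ((List.range n).map (R A C _ (one tm.k₁ [eout.symm β]))).getD _ [] = _
      rw [getD_range_map n _ _ (hidx _), R_idx]
      simp [one, encS]
    rw [this]
    cases β with
    | true => simp
    | false =>
      rw [decide_eq_false_iff_not]
      intro h0
      have h1 := C.inj ⟨tm.k₁, eout.symm false⟩ (Or.inr ⟨false, rfl⟩) ⟨tm.k₁, eout.symm true⟩
        (Or.inr ⟨true, rfl⟩) h0
      have h2 : eout.symm false = eout.symm true := eq_of_heq (Sigma.mk.inj h1).2
      exact Bool.false_ne_true (eout.symm.injective h2)
  -- the size bound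
  let N : Polynomial ℕ := Polynomial.C n * (Polynomial.C 4 * (Polynomial.C bs + Polynomial.C b * p)
    + Polynomial.C 2) + Polynomial.C 2
  have hN : ∀ x i c, cfg x i = some c → toN (rg c) < 2 ^ (N.eval x.length) := by
    intro x i c hc
    have hsp := (h x).2 i c hc
    refine lt_of_lt_of_le (toN_lt _) (Nat.pow_le_pow_right (by norm_num) ?_)
    have h1 : sz (rg c) ≤ (rg c).length * (4 * (bs + b * p.eval x.length) + 1 + 1) + 1 := by
      refine sz_le_length_mul _ _ ?_
      intro a ha
      obtain ⟨r, _, rfl⟩ := List.mem_map.1 ha
      refine (sz_listBool_le _).trans ?_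
      have h2 : (R A C (stc D c) c.stk r).length ≤ bs + b * p.eval x.length := by
        by_cases hr1 : r = 1
        · subst hr1
          rw [R_one]
          have : (stc D c).length ≤ bs := by
            unfold stc
            cases c.l with
            | none => simp
            | some l => simp only; rw [D.len]
          omega
        · by_cases hr2 : ∃ k : tm.K, idx k = r
          · obtain ⟨k, rfl⟩ := hr2
            rw [R_idx, encS_length]
            have := Nat.mul_le_mul_left b (hsp k)
            omega
          · push Not at hr2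
            rw [R_other _ _ _ _ _ hr1 hr2]
            simp
      omega
    have h2 : (rg c).length = n := by
      change ((List.range n).map _).length = n
      simp
    rw [h2] at h1
    simp only [N, Polynomial.eval_add, Polynomial.eval_mul, Polynomial.eval_C]
    have h3 : 4 * (bs + b * p.eval x.length) + 1 + 1 = 4 * (bs + b * p.eval x.length) + 2 := rfl
    rw [h3] at h1
    omega
  refine ⟨{ N := N, δ := δ, H := H, A := Ac, c₀ := c₀,
            poly_δ := poly_toN.comp ((poly_den _).comp poly_ofN),
            poly_H := Poly.decide_eq (poly_getD 1 [] poly_ofN) (Poly.const []),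
            poly_A := Poly.decide_eq (poly_getD _ [] poly_ofN) (Poly.const _),
            poly_c₀ := hpc₀,
            halts := ?_ }⟩
  intro x
  obtain ⟨m, β, hβ, hm1⟩ := (h x).1
  have hm1' : cfg x m = some (haltList tm [eout.symm β]) := hm1
  have hex : ∀ i ≤ m, ∃ c, cfg x i = some c := by
    intro i hi
    by_contra hcon
    push Not at hcon
    have h0 : cfg x i = none := Option.eq_none_iff_forall_ne_some.2 hcon
    have h1 : cfg x m = (flip bind tm.step)^[m - i] (cfg x i) := by
      simp only [cfg]
      rw [← Function.iterate_add_apply]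
      congr 2
      omega
    rw [h0, iter_none] at h1
    rw [hm1'] at h1
    exact absurd h1 (by simp)
  refine ⟨m, ?_, ?_, ?_, ?_⟩
  · intro i hi
    obtain ⟨c, hc⟩ := hex i hi
    rw [(hrun x i c hc).2]
    exact hN x i c hc
  · rw [(hrun x m _ hm1').2, hH]
    simp [haltList]
  · intro i hi
    obtain ⟨c, hc⟩ := hex i hi.le
    obtain ⟨c', hc'⟩ := hex (i + 1) hi
    rw [(hrun x i c hc).2, hH, decide_eq_false_iff_not]
    intro hl
    rw [hcfg_succ, hc] at hc'
    obtain ⟨l, v, S⟩ := c
    simp only at hl
    subst hl
    have h0 : (some (⟨none, v, S⟩ : tm.Cfg)).bind tm.step = none := rfl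
    exact absurd (h0.symm.trans hc') (by simp)
  · rw [(hrun x m _ hm1').2, hAc]
    exact hβ.symm

/-- **Main theorem.** If `Q1` holds then every language in `PSPACE` is in `P`. -/
theorem pspace_of_Q1 (hQ : Q1) (L : Set (List Bool)) (h : InPSPACE L) : InP L := by
  obtain ⟨D⟩ := exists_sys h
  exact D.toPerm.main hQ

end Pool.Agent.NPC.PIso
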