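import Pool.Agent.H550R2.Iso.Flow

/-!
# `Q1` implies that languages given by permutation problems are in `P`
-/

namespace Pool.Agent.NPC.PIso

section aux

variable {α : Type} [TEnc α]

theorem poly_tl {d : α → List Bool} {k : α → ℕ} (hd : Poly d) (hk : UPoly k) :
    Poly (fun a => tl (d a) (k a)) := by
  refine Poly.cons (Poly.const true) (Poly.cons (Poly.const true) (Poly.append ?_
    (Poly.cons (Poly.const false) hd)))
  refine (Poly.map (F := fun _ (_ : Unit) => true) hk (Poly.const true)).congr fun a => ?_
  simp

theorem length_bound {h : List Bool → List Bool} (hh : Poly h) :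
    ∃ p : Polynomial ℕ, ∀ w, (h w).length ≤ p.eval w.length := by
  obtain ⟨p, hp⟩ := hh.sz_le
  refine ⟨p.comp (4 * Polynomial.X + 1), fun w => ?_⟩
  have h1 := sz_listBool_ge (h w)
  have h2 := sz_listBool_le w
  have h3 := hp w
  have h4 := eval_mono p h2
  simp only [Polynomial.eval_comp, Polynomial.eval_add, Polynomial.eval_mul, Polynomial.eval_X,
    Polynomial.eval_one, Polynomial.eval_ofNat]
  omega

end aux

namespace PermProblem

variable {L : Set (List Bool)} (D : PermProblem L)

theorem fA_pinv : PInvertible (fA D.R) := by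
  refine ⟨fA_injective _, fAi D.R, poly_iff.1 (poly_fAi D.poly_R), fAi_fA _, fun y hy => ?_⟩
  by_contra h
  exact hy (fAi_ne _ _ h)

theorem gB_pinv : PInvertible (gB D.Q D.Ti) := by
  refine ⟨gB_injective _ D.T _ D.T_Ti, gBi D.Q D.T, poly_iff.1 (poly_gBi D.poly_Q D.poly_T),
    gBi_gB _ _ _ D.T_Ti, fun y hy => ?_⟩
  by_contra h
  exact hy (gBi_ne _ _ _ D.Ti_T _ h)

/-- the test that a string is in the tail of an instance -/
def test (h : List Bool → List Bool) (K : List Bool → ℕ) (x : List Bool) (k : ℕ) : Bool :=
  decide (h (tl (D.start x) (min k (K x))) = tl (D.start x)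
    ((h (tl (D.start x) (min k (K x)))).length - (3 + (D.start x).length)))

theorem poly_test {h : List Bool → List Bool} (hh : Poly h) {K : List Bool → ℕ} (hK : UPoly K) :
    Poly (fun p : List Bool × ℕ => D.test h K p.1 p.2) := by
  have hs : Poly (fun p : List Bool × ℕ => D.start p.1) := D.poly_start.comp (Poly.fst Poly.id)
  have hK' : UPoly (fun p : List Bool × ℕ => K p.1) := UPoly.comp hK (Poly.fst Poly.id)
  have hmin : UPoly (fun p : List Bool × ℕ => min p.2 (K p.1)) :=
    UPoly.of_le (Poly.min (Poly.snd Poly.id) hK'.toPoly) hK' fun p => min_le_right _ _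
  have h1 : Poly (fun p : List Bool × ℕ => h (tl (D.start p.1) (min p.2 (K p.1)))) :=
    hh.comp (poly_tl hs hmin)
  refine Poly.decide_eq h1 (poly_tl hs ?_)
  refine UPoly.of_le (Poly.sub (Poly.length h1) (Poly.add (Poly.const 3) (Poly.length hs)))
    (UPoly.length h1) fun p => Nat.sub_le _ _

theorem test_iff (h : List Bool → List Bool) (K : List Bool → ℕ) (x : List Bool) (k : ℕ)
    (hk : k < K x) : D.test h K x k = true ↔ ∃ j, h (tl (D.start x) k) = tl (D.start x) j := by
  unfold test
  rw [min_eq_left hk.le, decide_eq_true_iff]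
  constructor
  · intro h; exact ⟨_, h⟩
  · rintro ⟨j, hj⟩
    have h1 : (tl (D.start x) j).length - (3 + (D.start x).length) = j := by
      rw [tl_length]; omega
    rw [hj, h1]

theorem card_filter_range (K : ℕ) (b : ℕ → Bool) :
    ((Finset.range K).filter (fun k => ¬ (b k = true))).card =
      ((List.range K).filter (fun k => !(b k))).length := by
  rw [Finset.card_def]
  have : ((Finset.range K).filter (fun k => ¬ (b k = true))).val =
      ((List.range K).filter (fun k => !(b k)) : List ℕ) := by
    rw [Finset.filter_val]
    change Multiset.filter _ (List.range K : Multiset ℕ) = _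
    rw [Multiset.filter_coe]
    congr 2
    funext k
    simp
  rw [this, Multiset.coe_card]

theorem main {L : Set (List Bool)} (D : PermProblem L) (hQ : Q1) : InP L := by
  classical
  obtain ⟨A, B, hA, hB, hiso⟩ := exists_sets (fA D.R) (gB D.Q D.Ti)
    {f : List Bool → List Bool | PolyTime f} countable_polyTime
  obtain ⟨h, h', hp, hp', h1, h2, hh⟩ := hQ A B
    ⟨fA D.R, ⟨poly_iff.1 (poly_fA D.poly_R), hA⟩, fA_injective _, fA_length _, D.fA_pinv⟩
    ⟨gB D.Q D.Ti, ⟨poly_iff.1 (poly_gB D.poly_Q D.poly_Ti), hB⟩, gB_injective _ D.T _ D.T_Ti,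
      gB_length _ _ D.len, D.gB_pinv⟩
  obtain ⟨F, hF⟩ := hiso h hp hh
  have hfin := preserved F hF D.P D.satP D.disjP
  have hP : Poly h := poly_iff.2 hp
  have hP' : Poly h' := poly_iff.2 hp'
  obtain ⟨q, hq⟩ := length_bound hP
  obtain ⟨q', hq'⟩ := length_bound hP'
  let K : List Bool → ℕ := fun x => ((q + q' + 1).comp (Polynomial.X + 1)).eval (D.start x).length
  have hK : UPoly K := UPoly.eval (UPoly.length D.poly_start) _
  have hKq : ∀ x, q.eval (1 + (D.start x).length) < K x ∧ q'.eval (1 + (D.start x).length) < K x := by
    intro x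
    simp only [K, Polynomial.eval_comp, Polynomial.eval_add, Polynomial.eval_X,
      Polynomial.eval_one]
    rw [add_comm 1 (D.start x).length]
    omega
  let dL : List Bool → Bool := fun x => decide
    (((List.range (K x)).filter (fun k => !(D.test h K x k))).length =
      ((List.range (K x)).filter (fun k => !(D.test h' K x k))).length)
  have hdL : Poly dL := by
    refine Poly.decide_eq (Poly.length ?_) (Poly.length ?_)
    · exact Poly.filter (p := fun x k => !(D.test h K x k)) hK.range
        (Poly.not (D.poly_test hP hK))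
    · exact Poly.filter (p := fun x k => !(D.test h' K x k)) hK.range
        (Poly.not (D.poly_test hP' hK))
  have hgood : ∀ x, (∀ w, (D.P x (Sum.inl w) ↔ D.P x (Sum.inr (h w)))) →
      (x ∈ L ↔ dL x = true) := by
    intro x hx
    have hc := count (tl (D.start x)) (fun k k' hk => (tl_inj hk).2) (D.PA x) (D.PB x)
      (fun k hk => D.tl_not_PB x k (D.PA_sub_PB hk)) (D.tl_not_PB x) h h' h1 h2 hx (K x)
      (by
        intro k hk hmem
        rw [mem_PB] at hmem
        obtain ⟨i, _, hi⟩ := hmem
        have h3 : h' (false :: D.T^[i] (D.start x)) = tl (D.start x) k := by rw [← hi, h1]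
        have h4 := hq' (false :: D.T^[i] (D.start x))
        rw [h3, tl_length, List.length_cons, D.len_iter, add_comm (D.start x).length 1] at h4
        have := (hKq x).2
        omega)
      (by
        intro k hk hmem
        have hmem' := D.PA_sub_PB hmem
        rw [mem_PB] at hmem'
        obtain ⟨i, _, hi⟩ := hmem'
        have h3 : h (false :: D.T^[i] (D.start x)) = tl (D.start x) k := by rw [← hi, h2]
        have h4 := hq (false :: D.T^[i] (D.start x))
        rw [h3, tl_length, List.length_cons, D.len_iter, add_comm (D.start x).length 1] at h4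
        have := (hKq x).1
        omega)
      (fun k => D.test h K x k = true) (fun k => D.test h' K x k = true)
      (fun k hk => D.test_iff h K x k hk) (fun k hk => D.test_iff h' K x k hk)
    rw [card_filter_range, card_filter_range] at hc
    simp only [dL, decide_eq_true_iff]
    by_cases hxL : x ∈ L
    · rw [D.card_PA_acc x hxL] at hc
      exact ⟨fun _ => by omega, fun _ => hxL⟩
    · have := D.card_PA_rej x hxL
      exact ⟨fun h => absurd h hxL, fun h => by omega⟩
  let bad : List (List Bool) := hfin.toFinset.toList
  let badL : List (List Bool) := bad.filter (fun x => decide (x ∈ L))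
  refine ⟨fun x => [if x ∈ bad then decide (x ∈ badL) else dL x], ?_, fun x => ?_⟩
  · exact polyTime_of_poly (Poly.ite
      ((Poly.decide_mem Poly.id (Poly.const bad)).congr fun a => decide_eq_decide.2 Iff.rfl)
      ((Poly.decide_mem Poly.id (Poly.const badL)).congr fun a => decide_eq_decide.2 Iff.rfl) hdL)
  · by_cases hx : x ∈ bad
    · simp only [hx, if_true, List.cons.injEq, and_true, decide_eq_true_iff, badL,
        List.mem_filter, true_and]
    · have hx' : ∀ w, (D.P x (Sum.inl w) ↔ D.P x (Sum.inr (h w))) := by
        by_contra hcon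
        apply hx
        simp only [bad, Finset.mem_toList, Set.Finite.mem_toFinset]
        exact hcon
      rw [hgood x hx']
      simp [hx]

end PermProblem

end Pool.Agent.NPC.PIso
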