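import Pool.Agent.H550R2.Iso.Sub

/-!
# Programs with a space bound, and iteration in polynomial space
-/

namespace Pool.Agent.NPC.PIso

open Turing
open Function (update)

/-- all stacks have length at most `M` -/
def Bd {K : Type} (M : ℕ) (s : K → List Bool) : Prop := ∀ k, (s k).length ≤ M

/-- Big-step semantics with a space bound. -/
inductive RunS {K : Type} [DecidableEq K] (M : ℕ) :
    Cmd K → (K → List Bool) → (K → List Bool) → Prop
  | skip (s) : Bd M s → RunS M Cmd.skip s s
  | push (s k b) : Bd M s → Bd M (update s k (b :: s k)) →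
      RunS M (Cmd.push k b) s (update s k (b :: s k))
  | pop (s k) : Bd M s → RunS M (Cmd.pop k) s (update s k (s k).tail)
  | seq {c d s s' s''} : RunS M c s s' → RunS M d s' s'' → RunS M (Cmd.seq c d) s s''
  | casesNil {k c₀ cf ct s s'} : s k = [] → RunS M c₀ s s' → RunS M (Cmd.cases k c₀ cf ct) s s'
  | casesFalse {k c₀ cf ct s s' l} : s k = false :: l → RunS M cf s s' →
      RunS M (Cmd.cases k c₀ cf ct) s s'
  | casesTrue {k c₀ cf ct s s' l} : s k = true :: l → RunS M ct s s' →
      RunS M (Cmd.cases k c₀ cf ct) s s'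
  | loopNil {k c s} : Bd M s → s k = [] → RunS M (Cmd.loop k c) s s
  | loopCons {k c s s' s''} : s k ≠ [] → RunS M c s s' → RunS M (Cmd.loop k c) s' s'' →
      RunS M (Cmd.loop k c) s s''

theorem Bd.update_tail {K : Type} [DecidableEq K] {M : ℕ} {s : K → List Bool} (h : Bd M s)
    (k : K) : Bd M (update s k (s k).tail) := by
  intro i
  by_cases hi : i = k
  · subst hi
    rw [Function.update_self, List.length_tail]
    have := h i
    omega
  · rw [Function.update_of_ne hi]; exact h i

theorem RunS.bd {K : Type} [DecidableEq K] {M : ℕ} {c : Cmd K} {s s' : K → List Bool}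
    (h : RunS M c s s') : Bd M s ∧ Bd M s' := by
  induction h with
  | skip s h => exact ⟨h, h⟩
  | push s k b h h' => exact ⟨h, h'⟩
  | pop s k h => exact ⟨h, h.update_tail k⟩
  | seq _ _ ih₁ ih₂ => exact ⟨ih₁.1, ih₂.2⟩
  | casesNil _ _ ih => exact ih
  | casesFalse _ _ ih => exact ih
  | casesTrue _ _ ih => exact ih
  | loopNil h _ => exact ⟨h, h⟩
  | loopCons _ _ _ ih₁ ih₂ => exact ⟨ih₁.1, ih₂.2⟩

/-- A timed run is a run with a space bound. -/
theorem Run.toRunS {K : Type} [DecidableEq K] {c : Cmd K} {s s' : K → List Bool} {t : ℕ}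
    (h : Run c s s' t) {M : ℕ} : (∀ k, (s k).length + t ≤ M) → RunS M c s s' := by
  induction h with
  | skip s => intro hM; exact RunS.skip _ fun k => by have := hM k; omega
  | push s k b =>
    intro hM
    refine RunS.push _ _ _ (fun k => by have := hM k; omega) fun i => ?_
    have := hM i
    by_cases hi : i = k
    · subst hi; rw [Function.update_self, List.length_cons]; exact this
    · rw [Function.update_of_ne hi]; omega
  | pop s k => intro hM; exact RunS.pop _ _ fun k => by have := hM k; omega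
  | @seq c d s s' s'' t t' h₁ _ ih₁ ih₂ =>
    intro hM
    refine RunS.seq (ih₁ fun k => by have := hM k; omega) (ih₂ fun k => ?_)
    have h1 := h₁.length_le k
    have h2 := hM k
    omega
  | casesNil hk _ ih => intro hM; exact RunS.casesNil hk (ih fun k => by have := hM k; omega)
  | casesFalse hk _ ih => intro hM; exact RunS.casesFalse hk (ih fun k => by have := hM k; omega)
  | casesTrue hk _ ih => intro hM; exact RunS.casesTrue hk (ih fun k => by have := hM k; omega)
  | loopNil hk => intro hM; exact RunS.loopNil (fun k => by have := hM k; omega) hk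
  | @loopCons k c s s' s'' t t' hk h₁ _ ih₁ ih₂ =>
    intro hM
    refine RunS.loopCons hk (ih₁ fun k => by have := hM k; omega) (ih₂ fun k => ?_)
    have h1 := h₁.length_le k
    have h2 := hM k
    omega

theorem RunS.restrict {M : ℕ} {c : Cmd ℕ} {s s' : ℕ → List Bool} (h : RunS M c s s') {n : ℕ}
    (hn : c.bd ≤ n + 1) :
    RunS M (c.map (Fin.ofNat (n + 1))) (fun i : Fin (n + 1) => s i) (fun i => s' i) := by
  induction h with
  | skip s h => exact RunS.skip _ fun i => h i
  | push s k b h h' =>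
    have hk : k < n + 1 := hn
    have := RunS.push (M := M) (fun i : Fin (n + 1) => s i) (Fin.ofNat (n + 1) k) b
      (fun i => h i) (by
        intro i
        have h1 := h' i
        have h2 := congrFun (update_restrict hk s (b :: s k)) i
        have h3 : s (Fin.ofNat (n + 1) k : Fin (n + 1)) = s k := by
          simp [Nat.mod_eq_of_lt hk]
        rw [h3, ← h2]
        exact h1)
    rw [update_restrict hk]
    simpa [Cmd.map, Nat.mod_eq_of_lt hk] using this
  | pop s k h =>
    have hk : k < n + 1 := hn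
    have := RunS.pop (M := M) (fun i : Fin (n + 1) => s i) (Fin.ofNat (n + 1) k) (fun i => h i)
    rw [update_restrict hk]
    simpa [Cmd.map, Nat.mod_eq_of_lt hk] using this
  | seq _ _ ih₁ ih₂ =>
    simp only [Cmd.bd, sup_le_iff] at hn
    exact RunS.seq (ih₁ hn.1) (ih₂ hn.2)
  | casesNil hk _ ih =>
    simp only [Cmd.bd, sup_le_iff] at hn
    refine RunS.casesNil ?_ (ih hn.2.1)
    simpa [Nat.mod_eq_of_lt hn.1] using hk
  | @casesFalse k c₀ cf ct s s' l hk _ ih =>
    simp only [Cmd.bd, sup_le_iff] at hn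
    refine RunS.casesFalse (l := l) ?_ (ih hn.2.2.1)
    simpa [Nat.mod_eq_of_lt hn.1] using hk
  | @casesTrue k c₀ cf ct s s' l hk _ ih =>
    simp only [Cmd.bd, sup_le_iff] at hn
    refine RunS.casesTrue (l := l) ?_ (ih hn.2.2.2)
    simpa [Nat.mod_eq_of_lt hn.1] using hk
  | loopNil h hk =>
    simp only [Cmd.bd, sup_le_iff] at hn
    refine RunS.loopNil (fun i => h i) ?_
    simpa [Nat.mod_eq_of_lt hn.1] using hk
  | loopCons hk _ _ ih₁ ih₂ =>
    have hn' := hn
    simp only [Cmd.bd, sup_le_iff] at hn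
    refine RunS.loopCons ?_ (ih₁ hn.2) (ih₂ hn')
    simpa [Nat.mod_eq_of_lt hn.1] using hk

section Correct

variable {K : Type} [DecidableEq K] {L : Type}

/-- `n` machine steps with a space bound on all configurations on the way -/
def SpSteps (m : L → Cmd.Stm K L) (M n : ℕ) (a b : TM2.Cfg (fun _ : K => Bool) L (Option Bool)) :
    Prop :=
  Steps m n a b ∧ ∀ i ≤ n, ∃ c, Steps m i a c ∧ Bd M c.stk

theorem SpSteps.trans {m : L → Cmd.Stm K L} {M n n' : ℕ} {a b c}
    (h₁ : SpSteps m M n a b) (h₂ : SpSteps m M n' b c) : SpSteps m M (n + n') a c := by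
  refine ⟨h₁.1.trans h₂.1, fun i hi => ?_⟩
  rcases le_total i n with h | h
  · exact h₁.2 i h
  · obtain ⟨d, h3, h4⟩ := h₂.2 (i - n) (by omega)
    refine ⟨d, ?_, h4⟩
    have := h₁.1.trans h3
    rwa [show n + (i - n) = i by omega] at this

theorem SpSteps.one {m : L → Cmd.Stm K L} {M : ℕ} {a b} (h : TM2.step m a = some b)
    (ha : Bd M a.stk) (hb : Bd M b.stk) : SpSteps m M 1 a b := by
  refine ⟨Steps.one h, fun i hi => ?_⟩
  interval_cases i
  · exact ⟨a, Steps.zero m a, ha⟩
  · exact ⟨b, Steps.one h, hb⟩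

theorem code_correctS {M : ℕ} {c : Cmd K} {s s' : K → List Bool} (h : RunS M c s s') :
    ∀ (m : L → Cmd.Stm K L) (emb : c.Lbl → L) (exit : L),
      (∀ l, m (emb l) = c.code emb exit l) →
      ∀ v, ∃ v' t, SpSteps m M t ⟨some (emb c.entry), v, s⟩ ⟨some exit, v', s'⟩ := by
  induction h with
  | skip s h =>
    intro m emb exit hM v
    refine ⟨v, 1, SpSteps.one ?_ h h⟩
    simp [TM2.step, hM, Cmd.code]
  | push s k b h h' =>
    intro m emb exit hM v
    refine ⟨v, 1, SpSteps.one ?_ h h'⟩
    simp [TM2.step, hM, Cmd.code]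
  | pop s k h =>
    intro m emb exit hM v
    refine ⟨v, 1, SpSteps.one ?_ h (h.update_tail k)⟩
    simp [TM2.step, hM, Cmd.code]
  | @seq c d s s' s'' _ _ ih₁ ih₂ =>
    intro m emb exit hM v
    obtain ⟨v₁, t₁, h₁⟩ := ih₁ m (fun x => emb (Sum.inl x)) (emb (Sum.inr d.entry))
      (fun l => hM (Sum.inl l)) v
    obtain ⟨v₂, t₂, h₂⟩ := ih₂ m (fun x => emb (Sum.inr x)) exit (fun l => hM (Sum.inr l)) v₁
    exact ⟨v₂, t₁ + t₂, h₁.trans h₂⟩
  | @casesNil k c₀ cf ct s s' hk hr ih =>
    intro m emb exit hM v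
    obtain ⟨v₁, t₁, h₁⟩ := ih m (fun x => emb (some (Sum.inl x))) exit
      (fun l => hM (some (Sum.inl l))) none
    refine ⟨v₁, 1 + t₁, SpSteps.trans (SpSteps.one ?_ hr.bd.1 hr.bd.1) h₁⟩
    have : m (emb none) = _ := hM none
    simp [TM2.step, Cmd.entry, this, Cmd.code, hk]
  | @casesFalse k c₀ cf ct s s' l hk hr ih =>
    intro m emb exit hM v
    obtain ⟨v₁, t₁, h₁⟩ := ih m (fun x => emb (some (Sum.inr (Sum.inl x)))) exit
      (fun l => hM (some (Sum.inr (Sum.inl l)))) (some false)
    refine ⟨v₁, 1 + t₁, SpSteps.trans (SpSteps.one ?_ hr.bd.1 hr.bd.1) h₁⟩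
    have : m (emb none) = _ := hM none
    simp [TM2.step, Cmd.entry, this, Cmd.code, hk]
  | @casesTrue k c₀ cf ct s s' l hk hr ih =>
    intro m emb exit hM v
    obtain ⟨v₁, t₁, h₁⟩ := ih m (fun x => emb (some (Sum.inr (Sum.inr x)))) exit
      (fun l => hM (some (Sum.inr (Sum.inr l)))) (some true)
    refine ⟨v₁, 1 + t₁, SpSteps.trans (SpSteps.one ?_ hr.bd.1 hr.bd.1) h₁⟩
    have : m (emb none) = _ := hM none
    simp [TM2.step, Cmd.entry, this, Cmd.code, hk]
  | @loopNil k c s h hk =>
    intro m emb exit hM v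
    refine ⟨none, 1, SpSteps.one ?_ h h⟩
    have : m (emb none) = _ := hM none
    simp [TM2.step, Cmd.entry, this, Cmd.code, hk]
  | @loopCons k c s s' s'' hk hr _ ih₁ ih₂ =>
    intro m emb exit hM v
    obtain ⟨b, l, hl⟩ := List.exists_cons_of_ne_nil hk
    obtain ⟨v₁, t₁, h₁⟩ := ih₁ m (fun x => emb (some x)) (emb none)
      (fun l => hM (some l)) (some b)
    obtain ⟨v₂, t₂, h₂⟩ := ih₂ m emb exit hM v₁
    refine ⟨v₂, 1 + (t₁ + t₂), SpSteps.trans (SpSteps.one ?_ hr.bd.1 hr.bd.1) (h₁.trans h₂)⟩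
    have : m (emb none) = _ := hM none
    simp [TM2.step, Cmd.entry, this, Cmd.code, hl]

end Correct

theorem initList_toTM {n : ℕ} (c : Cmd (Fin (n + 1))) (x : List Bool) :
    (initList c.toTM x) = ⟨some (some c.entry), none, @inp (Fin (n + 1)) _ _ x⟩ := by
  unfold initList
  congr 1
  funext k
  change Fin (n + 1) at k
  by_cases hk : k = (0 : Fin (n + 1))
  · subst hk
    exact Eq.trans (dif_pos rfl) (by simp only [inp, Function.update_self]; rfl)
  · exact Eq.trans (dif_neg hk) (by simp [inp, hk]; rfl)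

theorem haltList_toTM {n : ℕ} (c : Cmd (Fin (n + 1))) (y : List Bool) :
    (haltList c.toTM y) = ⟨none, none, @inp (Fin (n + 1)) _ _ y⟩ := by
  unfold haltList
  congr 1
  funext k
  change Fin (n + 1) at k
  by_cases hk : k = (0 : Fin (n + 1))
  · subst hk
    exact Eq.trans (dif_pos rfl) (by simp only [inp, Function.update_self]; rfl)
  · exact Eq.trans (dif_neg hk) (by simp [inp, hk]; rfl)

theorem toTM_space {n : ℕ} {c : Cmd (Fin (n + 1))} {x y : List Bool} {M : ℕ}
    (h : RunS M c (inp x) (inp y)) :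
    (∃ t, (flip bind c.toTM.step)^[t] (some (initList c.toTM x)) = some (haltList c.toTM y)) ∧
      ∀ (i : ℕ) (cfg : c.toTM.Cfg),
        (flip bind c.toTM.step)^[i] (some (initList c.toTM x)) = some cfg →
          ∀ k, (cfg.stk k).length ≤ M := by
  obtain ⟨v, t, hv, hsp⟩ := code_correctS h (L := Option c.Lbl)
    (fun l => Option.rec (TM2.Stmt.load (fun _ => none) TM2.Stmt.halt)
      (fun l => c.code some none l) l) some none (fun l => rfl) none
  have hv' : (flip bind c.toTM.step)^[t] (some (initList c.toTM x)) =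
      some ⟨some none, v, @inp (Fin (n + 1)) _ _ y⟩ := by
    rw [initList_toTM]; exact hv
  have hv'' : (flip bind c.toTM.step)^[t + 1] (some (initList c.toTM x)) =
      some (haltList c.toTM y) := by
    rw [haltList_toTM, add_comm, Function.iterate_add_apply, hv']
    rfl
  refine ⟨⟨t + 1, hv''⟩, ?_⟩
  intro i cfg hi k
  rcases Nat.lt_trichotomy i (t + 1) with h1 | h1 | h1
  · obtain ⟨d, h2, h3⟩ := hsp i (by omega)
    have h4 : (flip bind c.toTM.step)^[i] (some (initList c.toTM x)) = some d := by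
      rw [initList_toTM]; exact h2
    rw [h4] at hi
    have h5 : d = cfg := Option.some.inj hi
    rw [← h5]
    exact h3 k
  · subst h1
    rw [hv''] at hi
    have h5 : haltList c.toTM y = cfg := Option.some.inj hi
    rw [← h5, haltList_toTM]
    exact h.bd.2 k
  · exfalso
    have h6 : (flip bind c.toTM.step)^[i] (some (initList c.toTM x)) = none := by
      rw [show i = (i - (t + 2)) + (t + 2) by omega, Function.iterate_add_apply,
        Function.iterate_succ_apply', hv'']
      have h7 : flip bind c.toTM.step (some (haltList c.toTM y)) = none := by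
        rw [haltList_toTM]; rfl
      rw [h7, iter_none]
    rw [h6] at hi
    exact absurd hi (by simp)

end Pool.Agent.NPC.PIso
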