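import Pool.Agent.H550R2.Iso.Str

/-!
# Polynomial space

`InPSPACE L`: the language `L` is decided by a Mathlib stack machine whose stacks stay polynomially
short. We show that such a language is given by iterating a polynomial-time function.
-/

namespace Pool.Agent.NPC.PIso

open Turing
open Function (update)
open Pool.Agent.H642R2.TMSim

/-- The class `PSPACE`: `L` is decided by a (deterministic) machine such that, on input `x`, in
every configuration reached the length of every stack is at most `p |x|`, for a polynomial `p`. -/
def InPSPACE (L : Set (List Bool)) : Prop :=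
  ∃ (tm : FinTM2) (ein : tm.Γ tm.k₀ ≃ Bool) (eout : tm.Γ tm.k₁ ≃ Bool) (p : Polynomial ℕ),
    ∀ x : List Bool,
      (∃ (n : ℕ) (b : Bool), (b = true ↔ x ∈ L) ∧
        (flip bind tm.step)^[n] (some (initList tm (x.map ein.symm))) =
          some (haltList tm [eout.symm b])) ∧
      ∀ (i : ℕ) (c : tm.Cfg),
        (flip bind tm.step)^[i] (some (initList tm (x.map ein.symm))) = some c →
          ∀ k, (c.stk k).length ≤ p.eval x.length

/-! ### Loop-free programs on lists of registers -/

/-- loop-free programs -/
def LoopFree : Cmd ℕ → Prop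
  | .skip => True
  | .push _ _ => True
  | .pop _ => True
  | .seq c d => LoopFree c ∧ LoopFree d
  | .cases _ a b c => LoopFree a ∧ LoopFree b ∧ LoopFree c
  | .loop _ _ => False

/-- the action of a loop-free program on a list of registers -/
def den : Cmd ℕ → List (List Bool) → List (List Bool)
  | .skip, l => l
  | .push k b, l => l.set k (b :: l.getD k [])
  | .pop k, l => l.set k (l.getD k []).tail
  | .seq c d, l => den d (den c l)
  | .cases k a b c, l => lcase (l.getD k []) (den a l) (fun x _ => bif x then den c l else den b l)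
  | .loop _ _, l => l

theorem poly_set {α β : Type} [TEnc α] [TEnc β] : ∀ (k : ℕ) {l : α → List β} {v : α → β},
    Poly l → Poly v → Poly (fun a => (l a).set k (v a)) := by
  intro k
  induction k generalizing α with
  | zero =>
    intro l v hl hv
    refine (poly_lcase (g := fun _ => ([] : List β)) (h := fun a _ t => v a :: t) hl (Poly.const _)
      (Poly.cons (hv.comp (Poly.fst Poly.id)) (Poly.snd (Poly.snd Poly.id)))).congr fun a => ?_
    cases l a <;> rfl
  | succ k ih =>
    intro l v hl hv
    refine (poly_lcase (g := fun _ => ([] : List β)) (h := fun a b t => b :: t.set k (v a)) hl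
      (Poly.const _) (Poly.cons (Poly.fst (Poly.snd Poly.id))
        (ih (Poly.snd (Poly.snd Poly.id)) (hv.comp (Poly.fst Poly.id))))).congr fun a => ?_
    cases l a <;> rfl

theorem poly_getD {α β : Type} [TEnc α] [TEnc β] (k : ℕ) (d : β) {l : α → List β} (hl : Poly l) :
    Poly (fun a => (l a).getD k d) := Poly.getD hl (Poly.const k) (Poly.const d)

theorem poly_den (c : Cmd ℕ) : Poly (den c) := by
  induction c with
  | skip => exact Poly.id
  | push k b => exact poly_set k Poly.id (Poly.cons (Poly.const b) (poly_getD k [] Poly.id))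
  | pop k => exact poly_set k Poly.id (Poly.tail (poly_getD k [] Poly.id))
  | seq c d ihc ihd => exact ihd.comp ihc
  | cases k a b c iha ihb ihc =>
    refine poly_lcase (h := fun l x _ => bif x then den c l else den b l)
      (poly_getD k [] Poly.id) iha ?_
    exact Poly.cond (Poly.fst (Poly.snd Poly.id)) (ihc.comp (Poly.fst Poly.id))
      (ihb.comp (Poly.fst Poly.id))
  | loop k c ih => exact Poly.id

theorem getD_range_map (n : ℕ) (s : ℕ → List Bool) (k : ℕ) (hk : k < n) :
    ((List.range n).map s).getD k [] = s k := by
  simp [List.getD_eq_getElem?_getD, hk]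

theorem set_range_map (n : ℕ) (s : ℕ → List Bool) (k : ℕ) (v : List Bool) :
    ((List.range n).map s).set k v = (List.range n).map (update s k v) := by
  apply List.ext_getElem?
  intro i
  by_cases hi : i < n
  · by_cases hik : k = i
    · subst hik
      simp [List.getElem?_set, hi]
    · simp [List.getElem?_set, hi, hik, Function.update_of_ne (Ne.symm hik)]
  · by_cases hik : k = i
    · subst hik
      simp [List.getElem?_set, hi]
    · simp [List.getElem?_set, hi, hik]

theorem run_den {c : Cmd ℕ} {s s' : ℕ → List Bool} {t : ℕ} (h : Run c s s' t) (n : ℕ) :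
    LoopFree c → c.bd ≤ n → den c ((List.range n).map s) = (List.range n).map s' := by
  induction h with
  | skip s => intro _ _; rfl
  | push s k b =>
    intro _ hn
    simp only [Cmd.bd] at hn
    rw [den, getD_range_map n s k (by omega), set_range_map]
  | pop s k =>
    intro _ hn
    simp only [Cmd.bd] at hn
    rw [den, getD_range_map n s k (by omega), set_range_map]
  | seq _ _ ih₁ ih₂ =>
    intro hl hn
    simp only [Cmd.bd, sup_le_iff] at hn
    rw [den, ih₁ hl.1 hn.1, ih₂ hl.2 hn.2]
  | casesNil hk _ ih =>
    intro hl hn
    simp only [Cmd.bd, sup_le_iff] at hn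
    rw [den, getD_range_map n _ _ (by omega), hk]
    exact ih hl.1 hn.2.1
  | casesFalse hk _ ih =>
    intro hl hn
    simp only [Cmd.bd, sup_le_iff] at hn
    rw [den, getD_range_map n _ _ (by omega), hk]
    exact ih hl.2.1 hn.2.2.1
  | casesTrue hk _ ih =>
    intro hl hn
    simp only [Cmd.bd, sup_le_iff] at hn
    rw [den, getD_range_map n _ _ (by omega), hk]
    exact ih hl.2.2 hn.2.2.2
  | loopNil _ => intro hl; exact absurd hl (by simp [LoopFree])
  | loopCons _ _ _ _ _ => intro hl; exact absurd hl (by simp [LoopFree])

/-! ### Loop-freeness of the simulation -/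

theorem loopFree_rd (r : ℕ) : ∀ (b : ℕ) (cont : List Bool → Cmd ℕ), (∀ w, LoopFree (cont w)) →
    LoopFree (rd r b cont)
  | 0, cont, h => h []
  | b + 1, cont, h => ⟨trivial, ⟨trivial, loopFree_rd r b _ fun w => h _⟩,
      ⟨trivial, loopFree_rd r b _ fun w => h _⟩⟩

theorem loopFree_wr (r : ℕ) : ∀ w, LoopFree (wr r w)
  | [] => trivial
  | _ :: l => ⟨loopFree_wr r l, trivial⟩

section Sim

variable {K : Type} [DecidableEq K] [Fintype K] {Γ : K → Type} {Λ σ : Type}
variable (A : Set (Σ k, Γ k)) {b : ℕ} (C : Cod A b) {bs : ℕ} (D : Cod (Set.univ : Set (Λ × σ)) bs)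

theorem loopFree_comp (q : TM2.Stmt Γ Λ σ) : ∀ v, LoopFree (comp A C D q v) := by
  induction q with
  | push k f q ih => intro v; exact ⟨loopFree_wr _ _, ih v⟩
  | peek k f q ih =>
    intro v
    unfold comp
    refine ⟨ih _, ?_, ?_⟩
    · refine loopFree_rd _ _ _ fun w => ?_
      cases dec A C k w with
      | none => trivial
      | some a => exact ⟨loopFree_wr _ _, ih _⟩
    · refine loopFree_rd _ _ _ fun w => ?_
      cases dec A C k w with
      | none => trivial
      | some a => exact ⟨loopFree_wr _ _, ih _⟩
  | pop k f q ih =>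
    intro v
    unfold comp
    refine ⟨ih _, ?_, ?_⟩
    · refine loopFree_rd _ _ _ fun w => ?_
      cases dec A C k w with
      | none => trivial
      | some a => exact ih _
    · refine loopFree_rd _ _ _ fun w => ?_
      cases dec A C k w with
      | none => trivial
      | some a => exact ih _
  | load f q ih => intro v; exact ih _
  | branch f q₁ q₂ ih₁ ih₂ =>
    intro v
    unfold comp
    cases f v
    · exact ih₂ v
    · exact ih₁ v
  | goto f => intro v; exact loopFree_wr _ _
  | halt => intro v; trivial

theorem loopFree_body (m : Λ → TM2.Stmt Γ Λ σ) : LoopFree (body A C D m) := by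
  refine loopFree_rd _ _ _ fun w => ?_
  cases decS D w with
  | none => trivial
  | some p => exact loopFree_comp A C D _ _

/-- one step of the machine on the register file -/
theorem body_runs (hb : 0 < b) (m : Λ → TM2.Stmt Γ Λ σ) (hm : ∀ l, pushes (m l) ⊆ A) (l : Λ)
    (v : σ) (S : ∀ k, List (Γ k)) (hG : Good A S) :
    Good A (TM2.stepAux (m l) v S).stk ∧ ∃ t,
      Run (body A C D m) (R A C (D.code (l, v)) S)
        (R A C (stc D (TM2.stepAux (m l) v S)) (TM2.stepAux (m l) v S).stk) t := by
  obtain ⟨h1, h2⟩ := comp_runs A C D hb (m l) (hm l) v S hG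
  refine ⟨h1, ?_⟩
  have h5 := rd_runs (r := 1) (D.code (l, v)) (fun w => match decS D w with
    | none => Cmd.skip
    | some p => comp A C D (m p.1) p.2) [] (R A C (D.code (l, v)) S) _ (cst b bs (m l))
    (by rw [R_one, List.append_nil]) (by
      rw [decS_code, R_update_one]
      exact h2)
  rw [D.len] at h5
  obtain ⟨t, _, ht⟩ := h5
  exact ⟨t, ht⟩

/-- the list of the first `n` registers of a configuration -/
noncomputable def regs (n : ℕ) (c : TM2.Cfg Γ Λ σ) : List (List Bool) :=
  (List.range n).map (R A C (stc D c) c.stk)

theorem den_regs (hb : 0 < b) (m : Λ → TM2.Stmt Γ Λ σ) (hm : ∀ l, pushes (m l) ⊆ A) (n : ℕ)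
    (hn : (body A C D m).bd ≤ n) (l : Λ) (v : σ) (S : ∀ k, List (Γ k)) (hG : Good A S) :
    den (body A C D m) (regs A C D n ⟨some l, v, S⟩) = regs A C D n (TM2.stepAux (m l) v S) := by
  obtain ⟨_, t, ht⟩ := body_runs A C D hb m hm l v S hG
  exact run_den ht n (loopFree_body A C D m) hn

end Sim

/-! ### Numbers as codes of register lists -/

/-- the number coding a list of registers -/
def toN (l : List (List Bool)) : ℕ := valB (bits l ++ [true])

/-- the list of registers coded by a number -/
def ofN (c : ℕ) : List (List Bool) :=
  (unbits (List (List Bool)) c.bits.reverse.tail.reverse).getD []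

theorem bits_valB_append_true : ∀ l : List Bool, (valB (l ++ [true])).bits = l ++ [true]
  | [] => by simp
  | b :: l => by
    have ih := bits_valB_append_true l
    have h1 : valB (b :: l ++ [true]) = Nat.bit b (valB (l ++ [true])) := by
      rw [List.cons_append, valB_cons, Nat.bit_val]
      cases b <;> simp <;> ring
    have h2 : valB (l ++ [true]) ≠ 0 := by
      rw [valB_append]
      simp
    rw [h1, Nat.bits_append_bit _ _ (fun h => absurd h h2), ih, List.cons_append]

theorem ofN_toN (l : List (List Bool)) : ofN (toN l) = l := by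
  unfold ofN toN
  rw [bits_valB_append_true]
  simp [unbits_bits]

theorem poly_bits {α : Type} [TEnc α] : Poly (fun a : α => bits a) := by
  have h : PC (bits : α → List Bool) (fun x : List Bool => x) (fun a : α => bits a) :=
    (PC.id : PC (bits : α → List Bool) (bits : α → List Bool) (fun a => a))
  exact PC.comp (g := fun x => x) (f := fun a : α => bits a) PC.rawIn h

theorem poly_toN : Poly toN := Poly.valBits (Poly.append poly_bits (Poly.const [true]))

theorem poly_ofN : Poly ofN := by
  have h : Poly (fun c : ℕ => unbits (List (List Bool)) c.bits.reverse.tail.reverse) :=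
    poly_unbits.comp (Poly.reverse (Poly.tail (Poly.reverse (Poly.natBits Poly.id))))
  refine (Poly.optCases (h := fun _ l => l) h (Poly.const []) (Poly.snd Poly.id)).congr
    fun c => ?_
  unfold ofN
  cases unbits (List (List Bool)) c.bits.reverse.tail.reverse <;> rfl

theorem toN_lt (l : List (List Bool)) : toN l < 2 ^ (sz l + 1) := by
  have := valB_lt (bits l ++ [true])
  rw [List.length_append, bits_length] at this
  exact this

end Pool.Agent.NPC.PIso
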