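import Pool.Agent.H550R2.Iso.Main
import Pool.Agent.H550R2.Iso.Euler

/-!
# From a polynomial-time step function on numbers to a permutation problem
-/

namespace Pool.Agent.NPC.PIso

section aux

variable {α : Type} [TEnc α]

theorem poly_pairBits {x w : α → List Bool} (hx : Poly x) (hw : Poly w) :
    Poly (fun a => pairBits (x a) (w a)) := by
  unfold pairBits
  refine Poly.append ?_ (Poly.cons (Poly.const false) hw)
  exact Poly.flatMap (F := fun _ b => [true, b]) hx (Poly.cons (Poly.const true)
    (Poly.cons (Poly.snd Poly.id) (Poly.const [])))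

theorem pairBits_length (x w : List Bool) : (pairBits x w).length = 2 * x.length + 1 + w.length := by
  unfold pairBits
  have : ∀ x : List Bool, (x.flatMap (fun b => [true, b])).length = 2 * x.length := by
    intro x
    induction x with
    | nil => rfl
    | cons b x ih => simp [List.flatMap_cons, ih]; ring
  rw [List.length_append, this, List.length_cons]
  ring

theorem valB_replicate (n : ℕ) : valB (List.replicate n false) = 0 := by
  induction n with
  | zero => rfl
  | succ n ih => simp [List.replicate_succ, ih]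

theorem poly_replicate_false {n : α → ℕ} (hn : UPoly n) :
    Poly (fun a => List.replicate (n a) false) :=
  (Poly.map (F := fun _ (_ : Unit) => false) hn (Poly.const false)).congr fun a => by simp

theorem poly_two_pow {n : α → ℕ} (hn : UPoly n) : Poly (fun a => 2 ^ (n a)) :=
  (Poly.valBits (Poly.append (poly_replicate_false hn) (Poly.const [true]))).congr fun a => by
    rw [valB_replicate_false]; simp

/-- the binary digits of `e`, padded to length `W` -/
def pad (W e : ℕ) : List Bool := e.bits ++ List.replicate (W - e.bits.length) false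

theorem poly_pad {W e : α → ℕ} (hW : UPoly W) (he : Poly e) : Poly (fun a => pad (W a) (e a)) :=
  Poly.append he.natBits (poly_replicate_false
    (UPoly.of_le (Poly.sub hW.toPoly (Poly.length he.natBits)) hW fun a => Nat.sub_le _ _))

theorem valB_pad (W e : ℕ) : valB (pad W e) = e := by
  unfold pad
  rw [valB_append, valB_bits, valB_replicate]
  simp

theorem bits_length_le {W e : ℕ} (h : e < 2 ^ W) : e.bits.length ≤ W := by
  rw [Nat.size_eq_bits_len]
  exact Nat.size_le.2 h

theorem pad_length {W e : ℕ} (h : e < 2 ^ W) : (pad W e).length = W := by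
  have := bits_length_le h
  simp only [pad, List.length_append, List.length_replicate]
  omega

theorem valB_inj : ∀ {l l' : List Bool}, l.length = l'.length → valB l = valB l' → l = l'
  | [], [], _, _ => rfl
  | [], _ :: _, h, _ => by simp at h
  | _ :: _, [], h, _ => by simp at h
  | a :: l, b :: l', h, h' => by
    simp only [valB_cons] at h'
    have h1 : l = l' := valB_inj (by simpa using h) (by cases a <;> cases b <;> simp at h' <;> omega)
    subst h1
    congr 1
    cases a <;> cases b <;> simp at h' <;> rfl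

theorem pad_valB {W : ℕ} {y : List Bool} (h : y.length = W) : pad W (valB y) = y := by
  apply valB_inj
  · rw [pad_length, h]
    rw [← h]
    exact valB_lt y
  · exact valB_pad _ _

end aux

/-- A language given by iterating a polynomial-time function on numbers with polynomially many
binary digits. -/
structure Sys (L : Set (List Bool)) where
  /-- the exponent of the size bound -/
  N : Polynomial ℕ
  /-- the step function -/
  δ : ℕ → ℕ
  /-- halting states -/
  H : ℕ → Bool
  /-- accepting states -/
  A : ℕ → Bool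
  /-- the initial state -/
  c₀ : List Bool → ℕ
  poly_δ : Poly δ
  poly_H : Poly H
  poly_A : Poly A
  poly_c₀ : Poly c₀
  halts : ∀ x, ∃ n, (∀ i ≤ n, δ^[i] (c₀ x) < 2 ^ (N.eval x.length)) ∧
    H (δ^[n] (c₀ x)) = true ∧ (∀ i < n, H (δ^[i] (c₀ x)) = false) ∧
    (x ∈ L ↔ A (δ^[n] (c₀ x)) = true)

namespace Sys

variable {L : Set (List Bool)} (D : Sys L)

/-- the number of states for inputs of a given length -/
def M (x : List Bool) : ℕ := 2 ^ (D.N.eval x.length)

/-- the final states for an input -/
def F (x : List Bool) (c : ℕ) : Bool := D.H c || decide (D.M x ≤ D.δ c)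

theorem hδ (x : List Bool) : ∀ c < D.M x, D.F x c = false → D.δ c < D.M x := by
  intro c _ h
  unfold F at h
  simp only [Bool.or_eq_false_iff, decide_eq_false_iff_not, not_le] at h
  exact h.2

/-- the width of the number part -/
def W (x : List Bool) : ℕ := 2 * (D.N.eval x.length) + 1

/-- the string of a dart -/
def cod (x : List Bool) (a : ℕ × ℕ) : List Bool :=
  pairBits x (pad (D.W x) (a.1 * (D.M x + 1) + a.2))

/-- the instance of a string -/
def px (d : List Bool) : List Bool := (unpair d).1

/-- the dart of a string -/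
def dart (d : List Bool) : ℕ × ℕ :=
  (valB (unpair d).2 / (D.M (px d) + 1), valB (unpair d).2 % (D.M (px d) + 1))

/-- valid strings -/
def valid (d : List Bool) : Bool :=
  decide (D.cod (px d) (D.dart d) = d) && decide ((D.dart d).1 < D.M (px d))

theorem lt_pow {x : List Bool} {a : ℕ × ℕ} (ha : Euler.Valid (D.M x) a) :
    a.1 * (D.M x + 1) + a.2 < 2 ^ (D.W x) := by
  obtain ⟨h1, h2⟩ := ha
  have h3 : 2 ^ (D.W x) = 2 * (D.M x * D.M x) := by
    unfold W M
    rw [pow_succ, pow_mul']
    ring
  rw [h3]
  nlinarith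

theorem px_mk {x : List Bool} {a : ℕ × ℕ} : px (D.cod x a) = x := by
  simp [px, cod, unpair_pairBits]

theorem dart_mk {x : List Bool} {a : ℕ × ℕ} (ha : Euler.Valid (D.M x) a) :
    D.dart (D.cod x a) = a := by
  unfold dart
  rw [px_mk]
  unfold cod
  rw [unpair_pairBits, valB_pad]
  have h1 : a.2 < D.M x + 1 := Nat.lt_succ_of_le ha.2
  apply Prod.ext
  · simp only
    rw [mul_comm, Nat.mul_add_div (Nat.succ_pos _), Nat.div_eq_of_lt h1, add_zero]
  · simp only
    rw [mul_comm, Nat.mul_add_mod, Nat.mod_eq_of_lt h1]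

theorem valid_mk {x : List Bool} {a : ℕ × ℕ} (ha : Euler.Valid (D.M x) a) :
    D.valid (D.cod x a) = true := by
  unfold valid
  rw [px_mk, D.dart_mk ha]
  simp [ha.1]

theorem valid_spec {d : List Bool} (h : D.valid d = true) :
    D.cod (px d) (D.dart d) = d ∧ Euler.Valid (D.M (px d)) (D.dart d) := by
  unfold valid at h
  simp only [Bool.and_eq_true, decide_eq_true_iff] at h
  exact ⟨h.1, h.2, Nat.lt_succ_iff.1 (Nat.mod_lt _ (Nat.succ_pos _))⟩

theorem mk_length {x : List Bool} {a : ℕ × ℕ} (ha : Euler.Valid (D.M x) a) :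
    (D.cod x a).length = 2 * x.length + 1 + D.W x := by
  unfold cod
  rw [pairBits_length, pad_length (D.lt_pow ha)]

theorem mk_inj {x x' : List Bool} {a a' : ℕ × ℕ} (h : D.cod x a = D.cod x' a') : x = x' := by
  have := congrArg px h
  rwa [px_mk, px_mk] at this

/-- the tour on strings -/
def T (d : List Bool) : List Bool :=
  if D.valid d = true then D.cod (px d) (Euler.T (D.M (px d)) D.δ (D.F (px d)) (D.dart d)) else d

/-- the inverse tour on strings -/
def Ti (d : List Bool) : List Bool :=
  if D.valid d = true then D.cod (px d) (Euler.Ti (D.M (px d)) D.δ (D.F (px d)) (D.dart d)) else d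

theorem T_mk {x : List Bool} {a : ℕ × ℕ} (ha : Euler.Valid (D.M x) a) :
    D.T (D.cod x a) = D.cod x (Euler.T (D.M x) D.δ (D.F x) a) := by
  unfold T
  rw [if_pos (D.valid_mk ha), px_mk, D.dart_mk ha]

theorem Ti_mk {x : List Bool} {a : ℕ × ℕ} (ha : Euler.Valid (D.M x) a) :
    D.Ti (D.cod x a) = D.cod x (Euler.Ti (D.M x) D.δ (D.F x) a) := by
  unfold Ti
  rw [if_pos (D.valid_mk ha), px_mk, D.dart_mk ha]

theorem T_Ti (d : List Bool) : D.T (D.Ti d) = d := by
  by_cases h : D.valid d = true
  · obtain ⟨h1, h2⟩ := D.valid_spec h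
    rw [← h1, D.Ti_mk h2, D.T_mk (Euler.valid_Ti (D.hδ _) h2), Euler.T_Ti (D.hδ _) h2]
  · have : D.Ti d = d := if_neg h
    rw [this]
    exact if_neg h

theorem Ti_T (d : List Bool) : D.Ti (D.T d) = d := by
  by_cases h : D.valid d = true
  · obtain ⟨h1, h2⟩ := D.valid_spec h
    rw [← h1, D.T_mk h2, D.Ti_mk (Euler.valid_T (D.hδ _) h2), Euler.Ti_T (D.hδ _) h2]
  · have : D.T d = d := if_neg h
    rw [this]
    exact if_neg h

theorem len_Ti (d : List Bool) : (D.Ti d).length = d.length := by
  by_cases h : D.valid d = true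
  · obtain ⟨h1, h2⟩ := D.valid_spec h
    rw [← h1, D.Ti_mk h2, D.mk_length h2, D.mk_length (Euler.valid_Ti (D.hδ _) h2)]
  · have : D.Ti d = d := if_neg h
    rw [this]

theorem T_iter {x : List Bool} {a : ℕ × ℕ} (ha : Euler.Valid (D.M x) a) (i : ℕ) :
    D.T^[i] (D.cod x a) = D.cod x ((Euler.T (D.M x) D.δ (D.F x))^[i] a) ∧
      Euler.Valid (D.M x) ((Euler.T (D.M x) D.δ (D.F x))^[i] a) := by
  induction i with
  | zero => exact ⟨rfl, ha⟩
  | succ i ih =>
    rw [Function.iterate_succ_apply', Function.iterate_succ_apply', ih.1, D.T_mk ih.2]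
    exact ⟨rfl, Euler.valid_T (D.hδ _) ih.2⟩

/-- the starting dart -/
def start (x : List Bool) : List Bool := D.cod x (D.c₀ x, D.M x)

/-- recognising starting darts -/
def isStart (d : List Bool) : Bool := decide (d = D.start (px d))

/-- recognising final darts -/
def fin (d : List Bool) : Bool :=
  D.valid d && (decide ((D.dart d).2 = D.M (px d)) && D.F (px d) (D.dart d).1)

/-- recognising accepting darts -/
def acc (d : List Bool) : Bool := D.A (D.dart d).1

theorem c₀_lt (x : List Bool) : D.c₀ x < D.M x := by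
  obtain ⟨n, h, _⟩ := D.halts x
  exact h 0 (by omega)

theorem valid_c₀ (x : List Bool) : Euler.Valid (D.M x) (D.c₀ x, D.M x) := ⟨D.c₀_lt x, le_rfl⟩

theorem at_c₀ (x : List Bool) : ∃ n z, Euler.At (D.M x) D.δ (D.F x) z n (D.c₀ x) ∧
    (x ∈ L ↔ D.A z = true) := by
  obtain ⟨n, h1, h2, h3, h4⟩ := D.halts x
  refine ⟨n, D.δ^[n] (D.c₀ x), ⟨D.c₀_lt x, rfl, ?_, ?_⟩, h4⟩
  · unfold F
    rw [h2]; rfl
  · intro i hi
    unfold F
    rw [h3 i hi, Bool.false_or, decide_eq_false_iff_not, not_le]
    have := h1 (i + 1) (by omega)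
    rwa [Function.iterate_succ_apply'] at this

/-! ### Polynomial time -/

theorem poly_px : Poly px := Poly.fst poly_unpair

theorem upoly_N {α : Type} [TEnc α] {x : α → List Bool} (hx : Poly x) :
    UPoly (fun a => D.N.eval (x a).length) := UPoly.eval (UPoly.length hx) _

theorem poly_M {α : Type} [TEnc α] {x : α → List Bool} (hx : Poly x) :
    Poly (fun a => D.M (x a)) := poly_two_pow (D.upoly_N hx)

theorem upoly_W {α : Type} [TEnc α] {x : α → List Bool} (hx : Poly x) :
    UPoly (fun a => D.W (x a)) := UPoly.add (UPoly.mul (UPoly.const 2) (D.upoly_N hx)) (UPoly.const 1)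

theorem poly_F {α : Type} [TEnc α] {x : α → List Bool} {c : α → ℕ} (hx : Poly x) (hc : Poly c) :
    Poly (fun a => D.F (x a) (c a)) :=
  Poly.or (D.poly_H.comp hc) (Poly.decide_le (D.poly_M hx) (D.poly_δ.comp hc))

theorem poly_mk {α : Type} [TEnc α] {x : α → List Bool} {a : α → ℕ × ℕ} (hx : Poly x)
    (ha : Poly a) : Poly (fun t => D.cod (x t) (a t)) :=
  poly_pairBits hx (poly_pad (D.upoly_W hx) (Poly.add (Poly.mul (Poly.fst ha)
    (Poly.add (D.poly_M hx) (Poly.const 1))) (Poly.snd ha)))

theorem poly_dart : Poly D.dart := by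
  have h1 : Poly (fun d : List Bool => valB (unpair d).2) := Poly.valBits (Poly.snd poly_unpair)
  have h2 : Poly (fun d : List Bool => D.M (px d) + 1) :=
    Poly.add (D.poly_M poly_px) (Poly.const 1)
  exact Poly.pair (Poly.div h1 h2) (Poly.mod h1 h2)

theorem poly_valid : Poly D.valid :=
  Poly.and (Poly.decide_eq (D.poly_mk poly_px D.poly_dart) Poly.id)
    (Poly.decide_lt (Poly.fst D.poly_dart) (D.poly_M poly_px))

theorem poly_eps {α : Type} [TEnc α] {x : α → List Bool} {a : α → ℕ × ℕ} (hx : Poly x)
    (ha : Poly a) : Poly (fun t => Euler.eps (D.M (x t)) D.δ (D.F (x t)) (a t)) := by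
  unfold Euler.eps
  refine Poly.ite (Poly.decide_eq (Poly.snd ha) (D.poly_M hx)) ?_ ?_
  · exact Poly.ite (Poly.decide_bool (D.poly_F hx (Poly.fst ha))) ha
      (Poly.pair (D.poly_δ.comp (Poly.fst ha)) (Poly.fst ha))
  · refine Poly.ite (Poly.decide_and ?_ (Poly.decide_eq (D.poly_δ.comp (Poly.snd ha))
      (Poly.fst ha))) (Poly.pair (Poly.snd ha) (D.poly_M hx)) ha
    exact Poly.decide_eq (D.poly_F hx (Poly.snd ha)) (Poly.const false)

theorem poly_T : Poly D.T := by
  refine Poly.ite (Poly.decide_bool D.poly_valid) (D.poly_mk poly_px ?_) Poly.id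
  have h := D.poly_eps poly_px D.poly_dart
  exact Poly.pair (Poly.fst h) (Poly.mod (Poly.add (Poly.snd h) (Poly.const 1))
    (Poly.add (D.poly_M poly_px) (Poly.const 1)))

theorem poly_Ti : Poly D.Ti := by
  refine Poly.ite (Poly.decide_bool D.poly_valid) (D.poly_mk poly_px ?_) Poly.id
  refine D.poly_eps (a := fun d => Euler.rhoi (D.M (px d)) (D.dart d)) poly_px ?_
  exact Poly.pair (Poly.fst D.poly_dart) (Poly.mod (Poly.add (Poly.snd D.poly_dart)
    (D.poly_M poly_px)) (Poly.add (D.poly_M poly_px) (Poly.const 1)))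

theorem poly_start : Poly D.start :=
  D.poly_mk Poly.id (Poly.pair D.poly_c₀ (D.poly_M Poly.id))

theorem poly_isStart : Poly D.isStart :=
  Poly.decide_eq Poly.id (D.poly_start.comp poly_px)

theorem poly_fin : Poly D.fin :=
  Poly.and D.poly_valid (Poly.and (Poly.decide_eq (Poly.snd D.poly_dart) (D.poly_M poly_px))
    (D.poly_F poly_px (Poly.fst D.poly_dart)))

theorem poly_acc : Poly D.acc := D.poly_A.comp (Poly.fst D.poly_dart)

/-- the permutation problem of an iteration -/
def toPerm : PermProblem L where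
  T := D.T
  Ti := D.Ti
  start := D.start
  isStart := D.isStart
  fin := D.fin
  acc := D.acc
  poly_T := D.poly_T
  poly_Ti := D.poly_Ti
  poly_start := D.poly_start
  poly_isStart := D.poly_isStart
  poly_fin := D.poly_fin
  poly_acc := D.poly_acc
  T_Ti := D.T_Ti
  Ti_T := D.Ti_T
  len := D.len_Ti
  isStart_iff := by
    intro d
    unfold isStart
    rw [decide_eq_true_iff]
    constructor
    · intro h; exact ⟨_, h⟩
    · rintro ⟨x, rfl⟩
      unfold start
      rw [px_mk]
  disj := by
    intro x x' i j h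
    unfold start at h
    rw [(D.T_iter (D.valid_c₀ x) i).1, (D.T_iter (D.valid_c₀ x') j).1] at h
    exact D.mk_inj h
  steps := by
    intro x
    obtain ⟨n, z, hAt, hz⟩ := D.at_c₀ x
    obtain ⟨m, h1, h2⟩ := Euler.first_final (D.hδ x) hAt
    have hfin : ∀ i, D.fin (D.T^[i] (D.start x)) =
        (decide (((Euler.T (D.M x) D.δ (D.F x))^[i] (D.c₀ x, D.M x)).2 = D.M x) &&
          D.F x ((Euler.T (D.M x) D.δ (D.F x))^[i] (D.c₀ x, D.M x)).1) := by
      intro i
      obtain ⟨h3, h4⟩ := D.T_iter (D.valid_c₀ x) i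
      unfold start
      rw [h3]
      unfold fin
      rw [D.valid_mk h4, px_mk, D.dart_mk h4, Bool.true_and]
    refine ⟨m, ?_, fun i hi => ?_, ?_⟩
    · rw [hfin, h1]
      simp [hAt.2.2.1]
    · rw [hfin]
      have := h2 i hi
      rw [Bool.and_eq_false_iff]
      by_contra hcon
      push Not at hcon
      apply this
      simpa using hcon
    · rw [hz]
      obtain ⟨h3, h4⟩ := D.T_iter (D.valid_c₀ x) m
      unfold start acc
      rw [h3, D.dart_mk h4, h1]

end Sys

end Pool.Agent.NPC.PIso
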