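import Pool.Agent.H550R2.Iso.Machine

/-!
# `P` is contained in `PSPACE`
-/

namespace Pool.Agent.NPC.PIso

open Turing
open Function (update)

section Stmt

variable {K : Type} [DecidableEq K] {Γ : K → Type} {Λ σ : Type}

/-- the number of pushes of a statement -/
def npush : TM2.Stmt Γ Λ σ → ℕ
  | .push _ _ q => npush q + 1
  | .peek _ _ q => npush q
  | .pop _ _ q => npush q
  | .load _ q => npush q
  | .branch _ q₁ q₂ => npush q₁ + npush q₂
  | .goto _ => 0
  | .halt => 0

theorem stepAux_length (q : TM2.Stmt Γ Λ σ) : ∀ (v : σ) (S : ∀ k, List (Γ k)) (k : K),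
    ((TM2.stepAux q v S).stk k).length ≤ (S k).length + npush q := by
  induction q with
  | push k f q ih =>
    intro v S k'
    refine (ih v _ k').trans ?_
    by_cases h : k' = k
    · subst h; simp [npush]; omega
    · rw [Function.update_of_ne h]; simp only [npush]; omega
  | peek k f q ih => intro v S k'; exact ih _ _ _
  | pop k f q ih =>
    intro v S k'
    refine (ih _ _ k').trans ?_
    by_cases h : k' = k
    · subst h; simp [npush]
    · rw [Function.update_of_ne h]; exact le_rfl
  | load f q ih => intro v S k'; exact ih _ _ _
  | branch f q₁ q₂ ih₁ ih₂ =>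
    intro v S k'
    simp only [TM2.stepAux, npush]
    cases f v
    · refine (ih₂ _ _ k').trans ?_; omega
    · refine (ih₁ _ _ k').trans ?_; omega
  | goto f => intro v S k'; simp [TM2.stepAux]
  | halt => intro v S k'; simp [TM2.stepAux]

end Stmt

/-- `P` is contained in `PSPACE`. -/
theorem inPSPACE_of_inP {L : Set (List Bool)} (h : InP L) : InPSPACE L := by
  obtain ⟨V, hV, hVL⟩ := h
  have hV' : PolyTime (fun x => [decide (V x = [true])]) :=
    polyTime_test (g := fun y => decide (y = [true])) hV (Poly.decide_eq Poly.id (Poly.const _))
  obtain ⟨M⟩ := hV'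
  have := M.tm.ΛFin
  obtain ⟨B, hB⟩ : ∃ B, ∀ l, npush (M.tm.m l) ≤ B := by
    obtain ⟨B, hB⟩ := (Set.finite_range (fun l => npush (M.tm.m l))).bddAbove
    exact ⟨B, fun l => hB ⟨l, rfl⟩⟩
  refine ⟨M.tm, M.inputAlphabet, M.outputAlphabet, Polynomial.X + Polynomial.C B * M.time,
    fun x => ?_⟩
  obtain ⟨⟨n, hn⟩, hn'⟩ := M.outputsFun x
  have hn1 : (flip bind M.tm.step)^[n] (some (initList M.tm (x.map M.inputAlphabet.symm))) =
      some (haltList M.tm [M.outputAlphabet.symm (decide (V x = [true]))]) := hn
  have hn2 : n ≤ M.time.eval x.length := hn'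
  refine ⟨⟨n, decide (V x = [true]), ?_, hn1⟩, ?_⟩
  · rw [decide_eq_true_iff]; exact (hVL x).symm
  · intro i c hc k
    have key : ∀ (i : ℕ) (c : M.tm.Cfg),
        (flip bind M.tm.step)^[i] (some (initList M.tm (x.map M.inputAlphabet.symm))) = some c →
        (c.stk k).length ≤ x.length + B * i := by
      intro i
      induction i with
      | zero =>
        intro c hc
        have h0 : initList M.tm (x.map M.inputAlphabet.symm) = c := Option.some.inj hc
        subst h0
        rw [H642R2.TMSim.initList_stk]
        simp only [H642R2.TMSim.one]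
        by_cases hk : k = M.tm.k₀
        · subst hk; rw [Function.update_self]; simp
        · rw [Function.update_of_ne hk]; simp
      | succ i ih =>
        intro c hc
        rw [Function.iterate_succ_apply'] at hc
        obtain ⟨c', hc', hstep⟩ := Option.bind_eq_some_iff.1 hc
        have h1 := ih c' hc'
        obtain ⟨l, v, S⟩ := c'
        cases l with
        | none =>
          have h0 : M.tm.step ⟨none, v, S⟩ = none := rfl
          exact absurd (h0.symm.trans hstep) (by simp)
        | some l =>
          have h0 : M.tm.step ⟨some l, v, S⟩ = some (TM2.stepAux (M.tm.m l) v S) := rfl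
          have h2 : TM2.stepAux (M.tm.m l) v S = c := Option.some.inj (h0.symm.trans hstep)
          have h3 := stepAux_length (M.tm.m l) v S k
          have h4 := hB l
          rw [h2] at h3
          simp only at h1
          rw [Nat.mul_succ]
          omega
    have hin : i ≤ n := by
      by_contra hcon
      have h1 : (flip bind M.tm.step)^[i] (some (initList M.tm (x.map M.inputAlphabet.symm))) =
          (flip bind M.tm.step)^[i - (n + 1)] ((flip bind M.tm.step)
            ((flip bind M.tm.step)^[n] (some (initList M.tm (x.map M.inputAlphabet.symm))))) := by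
        conv_lhs => rw [show i = (i - (n + 1)) + (n + 1) by omega]
        rw [Function.iterate_add_apply, Function.iterate_succ_apply']
      rw [hn1] at h1
      have h2 : flip bind M.tm.step (some (haltList M.tm
          [M.outputAlphabet.symm (decide (V x = [true]))])) = none := rfl
      rw [h2, iter_none] at h1
      rw [h1] at hc
      exact absurd hc (by simp)
    have h5 := key i c hc
    simp only [Polynomial.eval_add, Polynomial.eval_mul, Polynomial.eval_C, Polynomial.eval_X]
    have h6 : B * i ≤ B * M.time.eval x.length := Nat.mul_le_mul_left _ (hin.trans hn2)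
    omega

end Pool.Agent.NPC.PIso
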