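import Pool.Agent.H550R2.Iso.Comb
import Pool.Agent.H550R2.Iso.Raw

/-!
# From permutation problems to reductions

A language is given through the orbits of a polynomial-time permutation `T` of bit strings (with
polynomial-time inverse). We build two injective length-nondecreasing maps `fA`, `gB` such that
the component of an instance records the answer.
-/

namespace Pool.Agent.NPC.PIso


/-- case distinction on lists, as a function -/
def lcase {β γ : Type} (l : List β) (g : γ) (h : β → List β → γ) : γ :=
  match l with
  | [] => g
  | b :: t => h b t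

@[simp] theorem lcase_nil {β γ : Type} (g : γ) (h : β → List β → γ) : lcase [] g h = g := rfl
@[simp] theorem lcase_cons {β γ : Type} (b : β) (t : List β) (g : γ) (h : β → List β → γ) :
    lcase (b :: t) g h = h b t := rfl

theorem poly_lcase {α β γ : Type} [TEnc α] [TEnc β] [TEnc γ] {l : α → List β} {g : α → γ}
    {h : α → β → List β → γ} (hl : Poly l) (hg : Poly g)
    (hh : Poly (fun p : α × β × List β => h p.1 p.2.1 p.2.2)) :
    Poly (fun a => lcase (l a) (g a) (h a)) :=
  (Poly.listCases hl hg hh).congr fun a => by cases l a <;> rfl

/-- strings starting with `true, false` are tails of the first kind, entered at the points of `R` -/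
def fA (R : List Bool → Bool) (w : List Bool) : List Bool :=
  lcase w [] fun b d => bif b then (lcase d [true] fun c u =>
      bif c then true :: true :: u else true :: false :: true :: u)
    else (bif R d then true :: false :: false :: d else false :: d)

/-- strings starting with `true, true` are tails of the second kind, entered at the points
of `Q` -/
def gB (Q : List Bool → Bool) (Ti : List Bool → List Bool) (w : List Bool) : List Bool :=
  lcase w [] fun b d => bif b then (lcase d [true] fun c u =>
      bif c then true :: true :: true :: u else true :: false :: u)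
    else (bif Q d then true :: true :: false :: d else false :: Ti d)

/-- partial inverse of `fA` (`[]` outside the range, `true :: x` at `fA x`) -/
def fAi (R : List Bool → Bool) (w : List Bool) : List Bool :=
  lcase w [true] fun b d => bif b then (lcase d [true, true] fun c u =>
      bif c then true :: true :: true :: u
      else (lcase u [] fun e v => bif e then true :: true :: false :: v
        else (bif R v then true :: false :: v else [])))
    else (bif R d then [] else true :: false :: d)

/-- partial inverse of `gB` -/
def gBi (Q : List Bool → Bool) (T : List Bool → List Bool) (w : List Bool) : List Bool :=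
  lcase w [true] fun b d => bif b then (lcase d [true, true] fun c u =>
      bif c then (lcase u [] fun e v => bif e then true :: true :: true :: v
        else (bif Q v then true :: false :: v else []))
      else true :: true :: false :: u)
    else (bif Q (T d) then [] else true :: false :: T d)

theorem fA_length (R : List Bool → Bool) (w : List Bool) : w.length ≤ (fA R w).length := by
  match w with
  | [] => simp
  | [true] => simp [fA]
  | true :: true :: u => simp [fA]
  | true :: false :: u => simp [fA]
  | false :: d => cases h : R d <;> simp [fA, h]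

theorem gB_length (Q : List Bool → Bool) (Ti : List Bool → List Bool)
    (hTi : ∀ d, (Ti d).length = d.length) (w : List Bool) : w.length ≤ (gB Q Ti w).length := by
  match w with
  | [] => simp
  | [true] => simp [gB]
  | true :: true :: u => simp [gB]
  | true :: false :: u => simp [gB]
  | false :: d => cases h : Q d <;> simp [gB, h, hTi]

theorem fAi_fA (R : List Bool → Bool) (w : List Bool) : fAi R (fA R w) = true :: w := by
  match w with
  | [] => simp [fA, fAi]
  | [true] => simp [fA, fAi]
  | true :: true :: u => simp [fA, fAi]
  | true :: false :: u => simp [fA, fAi]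
  | false :: d => cases h : R d <;> simp [fA, fAi, h]

theorem fAi_ne (R : List Bool → Bool) (w : List Bool) (h : fAi R w ≠ []) :
    w ∈ Set.range (fA R) := by
  match w with
  | [] => exact ⟨[], rfl⟩
  | [true] => exact ⟨[true], rfl⟩
  | true :: true :: u => exact ⟨true :: true :: u, rfl⟩
  | true :: false :: [] => simp [fAi] at h
  | true :: false :: true :: v => exact ⟨true :: false :: v, rfl⟩
  | true :: false :: false :: v =>
    cases hR : R v
    · simp [fAi, hR] at h
    · exact ⟨false :: v, by simp [fA, hR]⟩
  | false :: d =>
    cases hR : R d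
    · exact ⟨false :: d, by simp [fA, hR]⟩
    · simp [fAi, hR] at h

theorem gBi_gB (Q : List Bool → Bool) (T Ti : List Bool → List Bool) (h1 : ∀ d, T (Ti d) = d)
    (w : List Bool) : gBi Q T (gB Q Ti w) = true :: w := by
  match w with
  | [] => simp [gB, gBi]
  | [true] => simp [gB, gBi]
  | true :: true :: u => simp [gB, gBi]
  | true :: false :: u => simp [gB, gBi]
  | false :: d => cases h : Q d <;> simp [gB, gBi, h, h1]

theorem gBi_ne (Q : List Bool → Bool) (T Ti : List Bool → List Bool) (h2 : ∀ d, Ti (T d) = d)
    (w : List Bool) (h : gBi Q T w ≠ []) : w ∈ Set.range (gB Q Ti) := by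
  match w with
  | [] => exact ⟨[], rfl⟩
  | [true] => exact ⟨[true], rfl⟩
  | true :: false :: u => exact ⟨true :: false :: u, rfl⟩
  | true :: true :: [] => simp [gBi] at h
  | true :: true :: true :: v => exact ⟨true :: true :: v, rfl⟩
  | true :: true :: false :: v =>
    cases hQ : Q v
    · simp [gBi, hQ] at h
    · exact ⟨false :: v, by simp [gB, hQ]⟩
  | false :: d =>
    cases hQ : Q (T d)
    · exact ⟨false :: T d, by simp [gB, hQ, h2]⟩
    · simp [gBi, hQ] at h

theorem fA_injective (R : List Bool → Bool) : Function.Injective (fA R) := by
  intro a b h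
  have := congrArg (fAi R) h
  rw [fAi_fA, fAi_fA] at this
  exact List.cons_injective this

theorem gB_injective (Q : List Bool → Bool) (T Ti : List Bool → List Bool)
    (h1 : ∀ d, T (Ti d) = d) : Function.Injective (gB Q Ti) := by
  intro a b h
  have := congrArg (gBi Q T) h
  rw [gBi_gB Q T Ti h1, gBi_gB Q T Ti h1] at this
  exact List.cons_injective this

/-! ### Polynomial time -/

section PolyLemmas

theorem poly_fA {R : List Bool → Bool} (hR : Poly R) : Poly (fA R) := by
  unfold fA
  refine poly_lcase (l := fun w => w) Poly.id (Poly.const _) ?_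
  refine Poly.cond (Poly.fst (Poly.snd Poly.id)) ?_ ?_
  · exact poly_lcase (Poly.snd (Poly.snd Poly.id)) (Poly.const _)
      (Poly.cond (Poly.fst (Poly.snd Poly.id))
        (Poly.cons (Poly.const _) (Poly.cons (Poly.const _) (Poly.snd (Poly.snd Poly.id))))
        (Poly.cons (Poly.const _) (Poly.cons (Poly.const _) (Poly.cons (Poly.const _)
          (Poly.snd (Poly.snd Poly.id))))))
  · exact Poly.cond (hR.comp (Poly.snd (Poly.snd Poly.id)))
      (Poly.cons (Poly.const _) (Poly.cons (Poly.const _) (Poly.cons (Poly.const _)
          (Poly.snd (Poly.snd Poly.id)))))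
      (Poly.cons (Poly.const _) (Poly.snd (Poly.snd Poly.id)))

theorem poly_gB {Q : List Bool → Bool} {Ti : List Bool → List Bool} (hQ : Poly Q)
    (hTi : Poly Ti) : Poly (gB Q Ti) := by
  unfold gB
  refine poly_lcase (l := fun w => w) Poly.id (Poly.const _) ?_
  refine Poly.cond (Poly.fst (Poly.snd Poly.id)) ?_ ?_
  · exact poly_lcase (Poly.snd (Poly.snd Poly.id)) (Poly.const _)
      (Poly.cond (Poly.fst (Poly.snd Poly.id))
        (Poly.cons (Poly.const _) (Poly.cons (Poly.const _) (Poly.cons (Poly.const _)
          (Poly.snd (Poly.snd Poly.id)))))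
        (Poly.cons (Poly.const _) (Poly.cons (Poly.const _) (Poly.snd (Poly.snd Poly.id)))))
  · exact Poly.cond (hQ.comp (Poly.snd (Poly.snd Poly.id)))
      (Poly.cons (Poly.const _) (Poly.cons (Poly.const _) (Poly.cons (Poly.const _)
          (Poly.snd (Poly.snd Poly.id)))))
      (Poly.cons (Poly.const _) (hTi.comp (Poly.snd (Poly.snd Poly.id))))

theorem poly_fAi {R : List Bool → Bool} (hR : Poly R) : Poly (fAi R) := by
  unfold fAi
  refine poly_lcase (l := fun w => w) Poly.id (Poly.const _) ?_
  refine Poly.cond (Poly.fst (Poly.snd Poly.id)) ?_ ?_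
  · refine poly_lcase (Poly.snd (Poly.snd Poly.id)) (Poly.const _)
      (Poly.cond (Poly.fst (Poly.snd Poly.id))
        (Poly.cons (Poly.const _) (Poly.cons (Poly.const _) (Poly.cons (Poly.const _)
          (Poly.snd (Poly.snd Poly.id)))))
        ?_)
    exact poly_lcase (Poly.snd (Poly.snd Poly.id)) (Poly.const _)
      (Poly.cond (Poly.fst (Poly.snd Poly.id))
        (Poly.cons (Poly.const _) (Poly.cons (Poly.const _) (Poly.cons (Poly.const _)
          (Poly.snd (Poly.snd Poly.id)))))
        (Poly.cond (hR.comp (Poly.snd (Poly.snd Poly.id)))
          (Poly.cons (Poly.const _) (Poly.cons (Poly.const _) (Poly.snd (Poly.snd Poly.id))))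
          (Poly.const _)))
  · exact Poly.cond (hR.comp (Poly.snd (Poly.snd Poly.id)))
      (Poly.const _)
      (Poly.cons (Poly.const _) (Poly.cons (Poly.const _) (Poly.snd (Poly.snd Poly.id))))

theorem poly_gBi {Q : List Bool → Bool} {T : List Bool → List Bool} (hQ : Poly Q)
    (hT : Poly T) : Poly (gBi Q T) := by
  unfold gBi
  refine poly_lcase (l := fun w => w) Poly.id (Poly.const _) ?_
  refine Poly.cond (Poly.fst (Poly.snd Poly.id)) ?_ ?_
  · refine poly_lcase (Poly.snd (Poly.snd Poly.id)) (Poly.const _)
      (Poly.cond (Poly.fst (Poly.snd Poly.id)) ?_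
        (Poly.cons (Poly.const _) (Poly.cons (Poly.const _) (Poly.cons (Poly.const _)
          (Poly.snd (Poly.snd Poly.id))))))
    exact poly_lcase (Poly.snd (Poly.snd Poly.id)) (Poly.const _)
      (Poly.cond (Poly.fst (Poly.snd Poly.id))
        (Poly.cons (Poly.const _) (Poly.cons (Poly.const _) (Poly.cons (Poly.const _)
          (Poly.snd (Poly.snd Poly.id)))))
        (Poly.cond (hQ.comp (Poly.snd (Poly.snd Poly.id)))
          (Poly.cons (Poly.const _) (Poly.cons (Poly.const _) (Poly.snd (Poly.snd Poly.id))))
          (Poly.const _)))
  · exact Poly.cond (hQ.comp (hT.comp (Poly.snd (Poly.snd Poly.id))))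
      (Poly.const _)
      (Poly.cons (Poly.const _) (Poly.cons (Poly.const _) (hT.comp (Poly.snd (Poly.snd Poly.id)))))

end PolyLemmas

end Pool.Agent.NPC.PIso
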